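import Mathlib

set_option autoImplicit false

namespace Pool.Agent.Results.MP_28bd58_gt.ErdosRatioLe

open Set Metric Filter Topology

/-- The Euclidean plane. -/
abbrev Plane := EuclideanSpace ℝ (Fin 2)

/-- The parameters `t` for which the point `X + t (Y - X)` of the Euclidean line `XY` lies in `M`.
For `X ≠ Y` in an open convex `M` this is an open interval containing `0` and `1`, and it
parametrises the chord `M ∩ XY`. -/
def chord (M : Set Plane) (X Y : Plane) : Set ℝ := {t : ℝ | X + t • (Y - X) ∈ M}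

/-- The affine ratio `(X,Y;A)` of the point `A = X + t (Y - X)`: the scalar `c` with
`c (A - Y) = A - X`, see `affRatio_spec`. -/
noncomputable def affRatio (t : ℝ) : ℝ := t / (t - 1)

theorem affRatio_spec (X Y A : Plane) (t : ℝ) (ht : t ≠ 1) (hA : A = X + t • (Y - X)) :
    affRatio t • (A - Y) = A - X := by
  have h1 : t - 1 ≠ 0 := sub_ne_zero.mpr ht
  have h2 : A - Y = (t - 1) • (Y - X) := by rw [hA]; module
  have h3 : A - X = t • (Y - X) := by rw [hA]; module
  rw [h2, h3, smul_smul, affRatio, div_mul_cancel₀ _ h1]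

open Classical in
/-- `(X,Y;A)` where `A` is the endpoint of the chord `M ∩ XY` beyond `Y`; the value is `1` when
the chord is unbounded in that direction (endpoint at infinity). -/
noncomputable def ratioA (M : Set Plane) (X Y : Plane) : ℝ :=
  if BddAbove (chord M X Y) then affRatio (sSup (chord M X Y)) else 1

open Classical in
/-- `(X,Y;B)` where `B` is the endpoint of the chord `M ∩ XY` beyond `X`; the value is `1` when
the chord is unbounded in that direction (endpoint at infinity). -/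
noncomputable def ratioB (M : Set Plane) (X Y : Plane) : ℝ :=
  if BddBelow (chord M X Y) then affRatio (sInf (chord M X Y)) else 1

open Classical in
/-- The Hilbert distance `d(X,Y) = (1/2) |log (X,Y;A,B)|`, `(X,Y;A,B) = (X,Y;A)/(X,Y;B)`. -/
noncomputable def hDist (M : Set Plane) (X Y : Plane) : ℝ :=
  if X = Y then 0 else (1 / 2) * |Real.log (ratioA M X Y / ratioB M X Y)|

/-- `M` is the domain of a Hilbert plane: a nonempty open strictly convex proper subset of the
plane (strict convexity is expressed on the closure, since for an open set it would otherwise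
just mean convexity). -/
structure IsHilbertPlane (M : Set Plane) : Prop where
  nonempty : M.Nonempty
  isOpen : IsOpen M
  convex : Convex ℝ M
  strictConvex : StrictConvex ℝ (closure M)
  ne_univ : M ≠ univ

/-- `M` is bounded by an ellipse, i.e. it is an affine image of the open unit disc: the
Cayley-Klein model of the hyperbolic plane. -/
def IsHyperbolicPlane (M : Set Plane) : Prop := ∃ e : Plane ≃ᵃ[ℝ] Plane, M = e '' ball 0 1

/-- The line of the Hilbert plane `M` through `A` and `B`. -/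
def hLine (M : Set Plane) (A B : Plane) : Set Plane := (line[ℝ, A, B] : Set Plane) ∩ M

/-- `F` is a foot of `O` on `l`. -/
def IsFoot (M : Set Plane) (O : Plane) (l : Set Plane) (F : Plane) : Prop :=
  F ∈ l ∧ ∀ X ∈ l, hDist M O F ≤ hDist M O X

/-- `ABC` is a triangle in `M`, the point `O` lies inside it, and `P`, `Q`, `R` are feet of `O` on
the lines `BC`, `CA`, `AB`. -/
structure IsConfig (M : Set Plane) (O A B C P Q R : Plane) : Prop where
  memA : A ∈ M
  memB : B ∈ M
  memC : C ∈ M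
  triangle : AffineIndependent ℝ ![A, B, C]
  inside : O ∈ interior (convexHull ℝ {A, B, C})
  footP : IsFoot M O (hLine M B C) P
  footQ : IsFoot M O (hLine M C A) Q
  footR : IsFoot M O (hLine M A B) R

/-- The number `ϱ(O;ABC)` (with feet `P`, `Q`, `R`). -/
noncomputable def configRatio (M : Set Plane) (O A B C P Q R : Plane) : ℝ :=
  (Real.tanh (hDist M O A) + Real.tanh (hDist M O B) + Real.tanh (hDist M O C)) /
    (Real.tanh (hDist M O P) + Real.tanh (hDist M O Q) + Real.tanh (hDist M O R))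

/-- The Erdos ratio of the Hilbert plane `M`: the infimum of `ϱ(O;ABC)` over all configurations,
taken in the extended reals (so that it would be `⊤` if there were no configuration). -/
noncomputable def erdosRatio (M : Set Plane) : EReal :=
  sInf {r : EReal | ∃ O A B C P Q R : Plane, IsConfig M O A B C P Q R ∧
    r = ((configRatio M O A B C P Q R : ℝ) : EReal)}

/-! ### The distance in terms of gauges -/

/-- `M` translated so that `O` becomes the origin. -/
def shift (M : Set Plane) (O : Plane) : Set Plane := {w | O + w ∈ M}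

theorem shift_open {M : Set Plane} (hM : IsOpen M) (O : Plane) : IsOpen (shift M O) :=
  hM.preimage (continuous_const.add continuous_id)

theorem shift_convex {M : Set Plane} (hM : Convex ℝ M) (O : Plane) : Convex ℝ (shift M O) :=
  hM.translate_preimage_right O

theorem zero_mem_shift {M : Set Plane} {O : Plane} (hO : O ∈ M) : (0 : Plane) ∈ shift M O := by
  simpa [shift] using hO

theorem shift_nhds {M : Set Plane} (hM : IsOpen M) {O : Plane} (hO : O ∈ M) :
    shift M O ∈ 𝓝 (0 : Plane) := (shift_open hM O).mem_nhds (zero_mem_shift hO)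

/-- The gauge of `M` with respect to the origin `O`. -/
noncomputable def ga (M : Set Plane) (O : Plane) (v : Plane) : ℝ := gauge (shift M O) v

theorem ga_nonneg (M : Set Plane) (O v : Plane) : 0 ≤ ga M O v := gauge_nonneg v

theorem ga_lt_one_iff {M : Set Plane} (hM : IsOpen M) (hc : Convex ℝ M) {O : Plane} (hO : O ∈ M)
    (v : Plane) : ga M O v < 1 ↔ O + v ∈ M := by
  have := setOfPred_gauge_lt_one_eq_self_of_isOpen (shift_convex hc O) (zero_mem_shift hO) (shift_open hM O)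
  have h2 : v ∈ {x | gauge (shift M O) x < 1} ↔ v ∈ shift M O := by rw [this]
  exact h2

theorem ga_smul {M : Set Plane} {O : Plane} {r : ℝ} (hr : 0 ≤ r) (v : Plane) :
    ga M O (r • v) = r * ga M O v := by
  unfold ga
  rw [gauge_smul_of_nonneg hr, smul_eq_mul]

theorem ga_continuous {M : Set Plane} (hM : IsOpen M) (hc : Convex ℝ M) {O : Plane} (hO : O ∈ M) :
    Continuous (ga M O) := continuous_gauge (shift_convex hc O) (shift_nhds hM hO)

theorem ga_add_le {M : Set Plane} (hM : IsOpen M) (hc : Convex ℝ M) {O : Plane} (hO : O ∈ M)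
    (v w : Plane) : ga M O (v + w) ≤ ga M O v + ga M O w :=
  gauge_add_le (shift_convex hc O) (absorbent_nhds_zero (shift_nhds hM hO)) v w

/-- The quantity `tanh d(O, O + v)`. -/
noncomputable def tau (M : Set Plane) (O v : Plane) : ℝ :=
  (ga M O v + ga M O (-v)) / (2 + ga M O (-v) - ga M O v)

theorem mem_chord_iff {M : Set Plane} (hM : IsOpen M) (hc : Convex ℝ M) {O : Plane} (hO : O ∈ M)
    (X : Plane) (t : ℝ) :
    t ∈ chord M O X ↔ t * ga M O (X - O) < 1 ∧ -t * ga M O (-(X - O)) < 1 := by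
  have h1 : t ∈ chord M O X ↔ ga M O (t • (X - O)) < 1 := by
    rw [ga_lt_one_iff hM hc hO]; rfl
  rw [h1]
  rcases le_total 0 t with ht | ht
  · rw [ga_smul ht]
    constructor
    · intro h
      refine ⟨h, ?_⟩
      have := mul_nonneg ht (ga_nonneg M O (-(X - O)))
      linarith
    · exact fun h => h.1
  · have h2 : t • (X - O) = (-t) • (-(X - O)) := by module
    rw [h2, ga_smul (by linarith)]
    constructor
    · intro h
      refine ⟨?_, h⟩
      have := mul_nonneg (neg_nonneg.mpr ht) (ga_nonneg M O (X - O))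
      linarith
    · exact fun h => h.2

theorem ratioA_eq {M : Set Plane} (hM : IsOpen M) (hc : Convex ℝ M) {O : Plane} (hO : O ∈ M)
    {X : Plane} (hX : X ∈ M) : ratioA M O X = 1 / (1 - ga M O (X - O)) := by
  have ha : ga M O (X - O) < 1 := by
    rw [ga_lt_one_iff hM hc hO]; simpa using hX
  have ha0 := ga_nonneg M O (X - O)
  have hb0 := ga_nonneg M O (-(X - O))
  rcases eq_or_lt_of_le ha0 with h | h
  · have hnb : ¬ BddAbove (chord M O X) := by
      rintro ⟨B, hB⟩
      have : max B 0 + 1 ∈ chord M O X := by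
        rw [mem_chord_iff hM hc hO]
        constructor
        · rw [← h]; norm_num
        · have h1 : 0 ≤ max B 0 := le_max_right _ _
          have := mul_nonneg (by linarith : 0 ≤ max B 0 + 1) hb0
          linarith
      have h2 := hB this
      have h3 : B ≤ max B 0 := le_max_left _ _
      linarith
    rw [ratioA, if_neg hnb, ← h]; norm_num
  · have hLUB : IsLUB (chord M O X) (1 / ga M O (X - O)) := by
      constructor
      · intro t ht
        rw [mem_chord_iff hM hc hO] at ht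
        rw [le_div_iff₀ h]; exact ht.1.le
      · intro B hB
        by_contra hlt
        push Not at hlt
        have h1 : (1 : ℝ) ∈ chord M O X := by
          rw [mem_chord_iff hM hc hO]; constructor <;> linarith
        have hB1 : 1 ≤ B := hB h1
        obtain ⟨t, ht1, ht2⟩ := exists_between hlt
        have : t ∈ chord M O X := by
          rw [mem_chord_iff hM hc hO]
          constructor
          · rwa [lt_div_iff₀ h] at ht2
          · have := mul_nonneg (by linarith : 0 ≤ t) hb0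
            linarith
        have := hB this
        linarith
    have hne : (chord M O X).Nonempty := ⟨1, by
      rw [mem_chord_iff hM hc hO]; constructor <;> linarith⟩
    rw [ratioA, if_pos hLUB.bddAbove, hLUB.csSup_eq hne, affRatio]
    have : (1 : ℝ) - ga M O (X - O) ≠ 0 := by linarith
    have h5 : ga M O (X - O) ≠ 0 := h.ne'
    have h6 : 1 / ga M O (X - O) - 1 = (1 - ga M O (X - O)) / ga M O (X - O) := by
      field_simp
    rw [h6]
    field_simp

theorem ratioB_eq {M : Set Plane} (hM : IsOpen M) (hc : Convex ℝ M) {O : Plane} (hO : O ∈ M)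
    {X : Plane} (hX : X ∈ M) : ratioB M O X = 1 / (1 + ga M O (-(X - O))) := by
  have ha : ga M O (X - O) < 1 := by
    rw [ga_lt_one_iff hM hc hO]; simpa using hX
  have ha0 := ga_nonneg M O (X - O)
  have hb0 := ga_nonneg M O (-(X - O))
  rcases eq_or_lt_of_le hb0 with h | h
  · have hnb : ¬ BddBelow (chord M O X) := by
      rintro ⟨B, hB⟩
      have : min B 0 - 1 ∈ chord M O X := by
        rw [mem_chord_iff hM hc hO]
        constructor
        · have h1 : min B 0 ≤ 0 := min_le_right _ _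
          have := mul_nonneg (by linarith : 0 ≤ -(min B 0 - 1)) ha0
          linarith
        · rw [← h]; norm_num
      have h2 := hB this
      have h3 : min B 0 ≤ B := min_le_left _ _
      linarith
    rw [ratioB, if_neg hnb, ← h]; norm_num
  · have hGLB : IsGLB (chord M O X) (-(1 / ga M O (-(X - O)))) := by
      constructor
      · intro t ht
        rw [mem_chord_iff hM hc hO] at ht
        have : -t ≤ 1 / ga M O (-(X - O)) := by
          rw [le_div_iff₀ h]; exact ht.2.le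
        linarith
      · intro B hB
        by_contra hlt
        push Not at hlt
        have h0 : (0 : ℝ) ∈ chord M O X := by
          rw [mem_chord_iff hM hc hO]; constructor <;> norm_num
        have hB1 : B ≤ 0 := hB h0
        obtain ⟨t, ht1, ht2⟩ := exists_between hlt
        have : t ∈ chord M O X := by
          rw [mem_chord_iff hM hc hO]
          constructor
          · have := mul_nonneg (by linarith : 0 ≤ -t) ha0
            linarith
          · have h7 : -t < 1 / ga M O (-(X - O)) := by linarith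
            rwa [lt_div_iff₀ h] at h7
        have := hB this
        linarith
    have hne : (chord M O X).Nonempty := ⟨1, by
      rw [mem_chord_iff hM hc hO]; constructor <;> linarith⟩
    rw [ratioB, if_pos hGLB.bddBelow, hGLB.csInf_eq hne, affRatio]
    have : (1 : ℝ) + ga M O (-(X - O)) ≠ 0 := by linarith
    have h5 : ga M O (-(X - O)) ≠ 0 := h.ne'
    have h6 : -(1 / ga M O (-(X - O))) - 1 =
        -((1 + ga M O (-(X - O))) / ga M O (-(X - O))) := by
      field_simp; ring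
    rw [h6, neg_div_neg_eq]
    field_simp

theorem tau_nonneg {M : Set Plane} (hM : IsOpen M) (hc : Convex ℝ M) {O : Plane} (hO : O ∈ M)
    {v : Plane} (hv : O + v ∈ M) : 0 ≤ tau M O v := by
  have ha : ga M O v < 1 := (ga_lt_one_iff hM hc hO v).2 hv
  have ha0 := ga_nonneg M O v
  have hb0 := ga_nonneg M O (-v)
  exact div_nonneg (by linarith) (by linarith)

theorem tau_lt_one {M : Set Plane} (hM : IsOpen M) (hc : Convex ℝ M) {O : Plane} (hO : O ∈ M)
    {v : Plane} (hv : O + v ∈ M) : tau M O v < 1 := by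
  have ha : ga M O v < 1 := (ga_lt_one_iff hM hc hO v).2 hv
  have ha0 := ga_nonneg M O v
  have hb0 := ga_nonneg M O (-v)
  rw [tau, div_lt_one (by linarith)]
  linarith

theorem hDist_eq_artanh {M : Set Plane} (hM : IsOpen M) (hc : Convex ℝ M) {O : Plane}
    (hO : O ∈ M) {X : Plane} (hX : X ∈ M) : hDist M O X = Real.artanh (tau M O (X - O)) := by
  have hX' : O + (X - O) ∈ M := by simpa using hX
  have ha : ga M O (X - O) < 1 := (ga_lt_one_iff hM hc hO _).2 hX'
  have ha0 := ga_nonneg M O (X - O)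
  have hb0 := ga_nonneg M O (-(X - O))
  have ht0 := tau_nonneg hM hc hO hX'
  have ht1 := tau_lt_one hM hc hO hX'
  by_cases hOX : O = X
  · subst hOX
    have h0 : ga M O (0 : Plane) = 0 := by simp [ga]
    simp [hDist, tau, h0]
  · rw [hDist, if_neg hOX, ratioA_eq hM hc hO hX, ratioB_eq hM hc hO hX]
    rw [Real.artanh_eq_half_log ⟨by linarith, by linarith⟩]
    have e1 : (1 / (1 - ga M O (X - O)) / (1 / (1 + ga M O (-(X - O)))) : ℝ) =
        (1 + ga M O (-(X - O))) / (1 - ga M O (X - O)) := by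
      have : (1 : ℝ) + ga M O (-(X - O)) ≠ 0 := by linarith
      have : (1 : ℝ) - ga M O (X - O) ≠ 0 := by linarith
      field_simp
    have e2 : (1 + tau M O (X - O)) / (1 - tau M O (X - O)) =
        (1 + ga M O (-(X - O))) / (1 - ga M O (X - O)) := by
      have h1 : (1 : ℝ) - ga M O (X - O) ≠ 0 := by linarith
      have h2 : (2 : ℝ) + ga M O (-(X - O)) - ga M O (X - O) ≠ 0 := by linarith
      have h3 : 1 - tau M O (X - O) ≠ 0 := by linarith
      rw [div_eq_div_iff h3 h1, tau]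
      field_simp
      ring
    rw [e1, e2, abs_of_nonneg]
    apply Real.log_nonneg
    rw [le_div_iff₀ (by linarith)]
    linarith

theorem tanh_hDist {M : Set Plane} (hM : IsOpen M) (hc : Convex ℝ M) {O : Plane}
    (hO : O ∈ M) {X : Plane} (hX : X ∈ M) : Real.tanh (hDist M O X) = tau M O (X - O) := by
  have hX' : O + (X - O) ∈ M := by simpa using hX
  rw [hDist_eq_artanh hM hc hO hX, Real.tanh_artanh]
  exact ⟨by linarith [tau_nonneg hM hc hO hX'], tau_lt_one hM hc hO hX'⟩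

theorem hDist_le_iff {M : Set Plane} (hM : IsOpen M) (hc : Convex ℝ M) {O : Plane}
    (hO : O ∈ M) {X Y : Plane} (hX : X ∈ M) (hY : Y ∈ M) :
    hDist M O X ≤ hDist M O Y ↔ tau M O (X - O) ≤ tau M O (Y - O) := by
  have hX' : O + (X - O) ∈ M := by simpa using hX
  have hY' : O + (Y - O) ∈ M := by simpa using hY
  rw [hDist_eq_artanh hM hc hO hX, hDist_eq_artanh hM hc hO hY]
  apply Real.artanh_le_artanh_iff
  · exact ⟨by linarith [tau_nonneg hM hc hO hX'], tau_lt_one hM hc hO hX'⟩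
  · exact ⟨by linarith [tau_nonneg hM hc hO hY'], tau_lt_one hM hc hO hY'⟩


/-! ### The tangent norm -/

theorem frontier_point {M : Set Plane} (h : IsHilbertPlane M) :
    ∃ p, p ∈ closure M ∧ p ∉ M := by
  obtain ⟨p, hp⟩ := nonempty_frontier_iff.2 ⟨h.nonempty, h.ne_univ⟩
  rw [h.isOpen.frontier_eq] at hp
  exact ⟨p, hp.1, hp.2⟩

theorem add_mem_closure {M : Set Plane} (hc : Convex ℝ M) {O v p : Plane}
    (hline : ∀ t : ℝ, O + t • v ∈ M) (hp : p ∈ closure M) : p + v ∈ closure M := by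
  have hcl : Convex ℝ (closure M) := hc.closure
  have hlim : Tendsto (fun ε : ℝ => (1 - ε) • p + ε • O + v) (𝓝[>] 0) (𝓝 (p + v)) := by
    have hcont : Continuous (fun ε : ℝ => (1 - ε) • p + ε • O + v) := by fun_prop
    have := hcont.tendsto 0
    simp only [sub_zero, one_smul, zero_smul, add_zero] at this
    exact this.mono_left nhdsWithin_le_nhds
  refine isClosed_closure.mem_of_tendsto hlim ?_
  have hIoo : Ioo (0 : ℝ) 1 ∈ 𝓝[>] (0 : ℝ) := Ioo_mem_nhdsGT one_pos
  filter_upwards [hIoo] with ε hε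
  have h1 : (1 - ε) • p + ε • (O + ε⁻¹ • v) ∈ closure M :=
    hcl hp (subset_closure (hline _)) (by linarith [hε.2]) hε.1.le (by ring)
  have h2 : (1 - ε) • p + ε • (O + ε⁻¹ • v) = (1 - ε) • p + ε • O + v := by
    rw [smul_add, smul_smul, mul_inv_cancel₀ hε.1.ne', one_smul, add_assoc]
  rwa [h2] at h1

theorem no_line {M : Set Plane} (h : IsHilbertPlane M) {O v : Plane} (hv : v ≠ 0) :
    ¬ ∀ t : ℝ, O + t • v ∈ M := by
  intro hline
  obtain ⟨p, hp1, hp2⟩ := frontier_point h
  have h1 : p + v ∈ closure M := add_mem_closure h.convex hline hp1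
  have hline' : ∀ t : ℝ, O + t • (-v) ∈ M := by
    intro t
    have := hline (-t)
    rwa [neg_smul, ← smul_neg] at this
  have h2 : p + (-v) ∈ closure M := add_mem_closure h.convex hline' hp1
  have hne : p + v ≠ p + (-v) := by
    intro h3
    have h4 : v = -v := add_left_cancel h3
    have h5 : (2 : ℝ) • v = 0 := by
      rw [two_smul]; nth_rewrite 1 [h4]; simp
    rcases smul_eq_zero.1 h5 with h6 | h6
    · norm_num at h6
    · exact hv h6
  have h5 := h.strictConvex h1 h2 hne (a := 1 / 2) (b := 1 / 2) (by norm_num) (by norm_num)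
    (by norm_num)
  have h6 : (1 / 2 : ℝ) • (p + v) + (1 / 2 : ℝ) • (p + -v) = p := by module
  rw [h6, h.convex.interior_closure_eq_interior_of_nonempty_interior
    (by rw [h.isOpen.interior_eq]; exact h.nonempty), h.isOpen.interior_eq] at h5
  exact hp2 h5

/-- The tangent norm at `O`. -/
noncomputable def nn (M : Set Plane) (O v : Plane) : ℝ := (ga M O v + ga M O (-v)) / 2

theorem nn_nonneg (M : Set Plane) (O v : Plane) : 0 ≤ nn M O v := by
  have := ga_nonneg M O v
  have := ga_nonneg M O (-v)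
  unfold nn; linarith

theorem nn_neg (M : Set Plane) (O v : Plane) : nn M O (-v) = nn M O v := by
  unfold nn; rw [neg_neg, add_comm]

theorem nn_smul {M : Set Plane} {O : Plane} {r : ℝ} (hr : 0 ≤ r) (v : Plane) :
    nn M O (r • v) = r * nn M O v := by
  unfold nn
  rw [← smul_neg, ga_smul hr, ga_smul hr]; ring

theorem nn_add_le {M : Set Plane} (hM : IsOpen M) (hc : Convex ℝ M) {O : Plane} (hO : O ∈ M)
    (v w : Plane) : nn M O (v + w) ≤ nn M O v + nn M O w := by
  have h1 := ga_add_le hM hc hO v w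
  have h2 := ga_add_le hM hc hO (-v) (-w)
  have h3 : -(v + w) = -v + -w := by abel
  unfold nn
  rw [h3]; linarith

theorem nn_continuous {M : Set Plane} (hM : IsOpen M) (hc : Convex ℝ M) {O : Plane}
    (hO : O ∈ M) : Continuous (nn M O) := by
  have := ga_continuous hM hc hO
  unfold nn
  fun_prop

theorem nn_pos {M : Set Plane} (h : IsHilbertPlane M) {O : Plane} (hO : O ∈ M) {v : Plane}
    (hv : v ≠ 0) : 0 < nn M O v := by
  rcases eq_or_lt_of_le (nn_nonneg M O v) with h0 | h0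
  · exfalso
    have h1 := ga_nonneg M O v
    have h2 := ga_nonneg M O (-v)
    have h3 : ga M O v = 0 := by unfold nn at h0; linarith
    have h4 : ga M O (-v) = 0 := by unfold nn at h0; linarith
    apply no_line h (O := O) hv
    intro t
    rw [← ga_lt_one_iff h.isOpen h.convex hO]
    rcases le_total 0 t with ht | ht
    · rw [ga_smul ht, h3]; norm_num
    · have h5 : t • v = (-t) • (-v) := by module
      rw [h5, ga_smul (by linarith), h4]; norm_num
  · exact h0

theorem nn_coercive {M : Set Plane} (h : IsHilbertPlane M) {O : Plane} (hO : O ∈ M) :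
    ∃ c : ℝ, 0 < c ∧ ∀ v, c * ‖v‖ ≤ nn M O v := by
  have hcont := nn_continuous h.isOpen h.convex hO
  have hne : (sphere (0 : Plane) 1).Nonempty := NormedSpace.sphere_nonempty.2 zero_le_one
  obtain ⟨u, hu, hmin⟩ := (isCompact_sphere (0 : Plane) 1).exists_isMinOn hne hcont.continuousOn
  have hu1 : ‖u‖ = 1 := by simpa using hu
  have hu0 : u ≠ 0 := by
    intro h0; rw [h0, norm_zero] at hu1; exact zero_ne_one hu1
  refine ⟨nn M O u, nn_pos h hO hu0, fun v => ?_⟩
  by_cases hv : v = 0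
  · subst hv; simp [nn_nonneg]
  · have hv' : 0 < ‖v‖ := norm_pos_iff.2 hv
    have h1 : ‖v‖⁻¹ • v ∈ sphere (0 : Plane) 1 := by
      simp [norm_smul, hv'.ne']
    have h2 : nn M O u ≤ nn M O (‖v‖⁻¹ • v) := hmin h1
    rw [nn_smul (inv_nonneg.2 hv'.le)] at h2
    have h3 : nn M O u * ‖v‖ ≤ (‖v‖⁻¹ * nn M O v) * ‖v‖ :=
      mul_le_mul_of_nonneg_right h2 hv'.le
    have h4 : (‖v‖⁻¹ * nn M O v) * ‖v‖ = nn M O v := by field_simp
    linarith

theorem ball_compact {M : Set Plane} (h : IsHilbertPlane M) {O : Plane} (hO : O ∈ M) (r : ℝ) :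
    IsCompact {v | nn M O v ≤ r} := by
  obtain ⟨c, hc, hcv⟩ := nn_coercive h hO
  apply Metric.isCompact_of_isClosed_isBounded
  · exact isClosed_le (nn_continuous h.isOpen h.convex hO) continuous_const
  · rw [isBounded_iff_forall_norm_le]
    refine ⟨r / c, fun v hv => ?_⟩
    rw [le_div_iff₀ hc]
    have := hcv v
    have : nn M O v ≤ r := hv
    linarith

/-! ### Existence of feet -/

theorem exists_foot {M : Set Plane} (h : IsHilbertPlane M) {O : Plane} (hO : O ∈ M)
    {A B : Plane} (hA : A ∈ M) : ∃ F, IsFoot M O (hLine M A B) F := by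
  have hM := h.isOpen
  have hc := h.convex
  have hga := ga_continuous hM hc hO
  set t := tau M O (A - O) with ht
  have hA' : O + (A - O) ∈ M := by simpa using hA
  have ht0 : 0 ≤ t := tau_nonneg hM hc hO hA'
  have ht1 : t < 1 := tau_lt_one hM hc hO hA'
  set S : Set Plane := {X | X ∈ (line[ℝ, A, B] : Set Plane) ∧
    (1 + t) * ga M O (X - O) + (1 - t) * ga M O (-(X - O)) ≤ 2 * t} with hS
  have hSM : ∀ X ∈ S, X ∈ M := by
    rintro X ⟨-, hX⟩
    have h1 := ga_nonneg M O (-(X - O))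
    have h2 : (1 + t) * ga M O (X - O) ≤ 2 * t := by nlinarith
    have h3 : ga M O (X - O) < 1 := by
      by_contra h4
      push Not at h4
      nlinarith
    rw [ga_lt_one_iff hM hc hO] at h3
    simpa using h3
  have hcl : IsClosed (line[ℝ, A, B] : Set Plane) :=
    (line[ℝ, A, B]).closed_of_finiteDimensional
  have hScl : IsClosed S := by
    have h1 : IsClosed {X : Plane | (1 + t) * ga M O (X - O) +
        (1 - t) * ga M O (-(X - O)) ≤ 2 * t} := isClosed_le (by fun_prop) continuous_const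
    exact hcl.inter h1
  have hSb : Bornology.IsBounded S := by
    obtain ⟨c, hc0, hcv⟩ := nn_coercive h hO
    rw [isBounded_iff_forall_norm_le]
    refine ⟨t / (1 - t) / c + ‖O‖, fun X hX => ?_⟩
    have h1 := hX.2
    have h2 := ga_nonneg M O (X - O)
    have h3 : nn M O (X - O) ≤ t / (1 - t) := by
      rw [le_div_iff₀ (by linarith)]
      unfold nn
      nlinarith
    have h4 : ‖X - O‖ ≤ t / (1 - t) / c := by
      rw [le_div_iff₀ hc0]
      have := hcv (X - O)
      linarith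
    have h5 : ‖X‖ ≤ ‖X - O‖ + ‖O‖ := by
      have := norm_add_le (X - O) O
      simpa using this
    linarith
  have hScomp : IsCompact S := Metric.isCompact_of_isClosed_isBounded hScl hSb
  have hAS : A ∈ S := by
    refine ⟨left_mem_affineSpan_pair ℝ A B, ?_⟩
    have h1 : ga M O (A - O) < 1 := (ga_lt_one_iff hM hc hO _).2 hA'
    have h2 := ga_nonneg M O (-(A - O))
    have h3 : t * (2 + ga M O (-(A - O)) - ga M O (A - O)) =
        ga M O (A - O) + ga M O (-(A - O)) := by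
      rw [ht, tau, div_mul_cancel₀]
      linarith
    linarith
  have hcont : ContinuousOn (fun X => tau M O (X - O)) S := by
    unfold tau
    apply ContinuousOn.div
    · fun_prop
    · fun_prop
    · intro X hX
      have h1 : ga M O (X - O) < 1 := by
        rw [ga_lt_one_iff hM hc hO]; simpa using hSM X hX
      have h2 := ga_nonneg M O (-(X - O))
      linarith
  obtain ⟨F, hF, hmin⟩ := hScomp.exists_isMinOn ⟨A, hAS⟩ hcont
  refine ⟨F, ⟨hF.1, hSM F hF⟩, ?_⟩
  rintro X ⟨hX1, hX2⟩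
  rw [hDist_le_iff hM hc hO (hSM F hF) hX2]
  by_cases hXS : X ∈ S
  · exact hmin hXS
  · have h1 : 2 * t < (1 + t) * ga M O (X - O) + (1 - t) * ga M O (-(X - O)) := by
      by_contra h2
      push Not at h2
      exact hXS ⟨hX1, h2⟩
    have h3 : tau M O (F - O) ≤ t := hmin hAS
    have h4 : t < tau M O (X - O) := by
      have h5 : ga M O (X - O) < 1 := by
        rw [ga_lt_one_iff hM hc hO]; simpa using hX2
      have h6 := ga_nonneg M O (-(X - O))
      rw [tau, lt_div_iff₀ (by linarith)]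
      linarith
    linarith


/-! ### The inscribed triangle of maximal area -/

/-- The cross product (determinant) of two vectors of the plane. -/
def cr (v w : Plane) : ℝ := v 0 * w 1 - v 1 * w 0

/-- Twice the oriented area of a triangle. -/
def ar (u v w : Plane) : ℝ := cr u v + cr v w + cr w u

theorem cr_continuous : Continuous fun p : Plane × Plane => cr p.1 p.2 := by
  unfold cr; fun_prop

/-- `(u, v, w)` is an inscribed triangle of maximal area of the unit ball of the tangent norm. -/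
structure IsMaxTri (M : Set Plane) (O u v w : Plane) : Prop where
  hu : nn M O u ≤ 1
  hv : nn M O v ≤ 1
  hw : nn M O w ≤ 1
  pos : 0 < ar u v w
  max : ∀ a b c, nn M O a ≤ 1 → nn M O b ≤ 1 → nn M O c ≤ 1 → ar a b c ≤ ar u v w

theorem IsMaxTri.rot {M : Set Plane} {O u v w : Plane} (h : IsMaxTri M O u v w) :
    IsMaxTri M O v w u := by
  have e : ar v w u = ar u v w := by unfold ar; ring
  exact ⟨h.hv, h.hw, h.hu, e ▸ h.pos, fun a b c ha hb hc => e ▸ h.max a b c ha hb hc⟩

theorem exists_maxTri {M : Set Plane} (h : IsHilbertPlane M) {O : Plane} (hO : O ∈ M) :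
    ∃ u v w, IsMaxTri M O u v w := by
  set K : Set Plane := {v | nn M O v ≤ 1} with hK
  have hKc : IsCompact K := ball_compact h hO 1
  have h0 : (0 : Plane) ∈ K := by
    have : nn M O 0 = 0 := by simp [nn, ga]
    simp [hK, this]
  have hcomp : IsCompact (K ×ˢ (K ×ˢ K)) := hKc.prod (hKc.prod hKc)
  have hcont : Continuous fun p : Plane × (Plane × Plane) => ar p.1 p.2.1 p.2.2 := by
    unfold ar cr; fun_prop
  obtain ⟨⟨u, v, w⟩, hmem, hmax⟩ := hcomp.exists_isMaxOn ⟨(0, (0, 0)), h0, h0, h0⟩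
    hcont.continuousOn
  have hmax' : ∀ a b c, nn M O a ≤ 1 → nn M O b ≤ 1 → nn M O c ≤ 1 → ar a b c ≤ ar u v w := by
    intro a b c ha hb hc
    exact hmax (show (a, (b, c)) ∈ K ×ˢ (K ×ˢ K) from ⟨ha, hb, hc⟩)
  refine ⟨u, v, w, hmem.1, hmem.2.1, hmem.2.2, ?_, hmax'⟩
  -- positivity
  set e0 : Plane := EuclideanSpace.single 0 1 with he0
  set e1 : Plane := EuclideanSpace.single 1 1 with he1
  have key : ∀ x : Plane, nn M O ((1 + nn M O x)⁻¹ • x) ≤ 1 := by
    intro x
    have h1 := nn_nonneg M O x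
    rw [nn_smul (by positivity), inv_mul_le_iff₀ (by linarith)]
    linarith
  have h2 := hmax' 0 ((1 + nn M O e0)⁻¹ • e0) ((1 + nn M O e1)⁻¹ • e1) h0 (key e0) (key e1)
  have h3 : ar 0 ((1 + nn M O e0)⁻¹ • e0) ((1 + nn M O e1)⁻¹ • e1) =
      (1 + nn M O e0)⁻¹ * (1 + nn M O e1)⁻¹ := by
    simp [ar, cr, he0, he1]
  have h4 : 0 < (1 + nn M O e0)⁻¹ * (1 + nn M O e1)⁻¹ := by
    have := nn_nonneg M O e0
    have := nn_nonneg M O e1
    positivity
  linarith

theorem IsMaxTri.props {M : Set Plane} {O u v w : Plane}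
    (h : IsMaxTri M O u v w) (hpl : IsHilbertPlane M) (hO : O ∈ M) :
    0 ≤ cr v w ∧ 0 < cr w u + cr u v ∧
      ∀ x, |cr x (v - w)| ≤ (cr w u + cr u v) * nn M O x := by
  have hneg : ∀ x, nn M O x ≤ 1 → nn M O (-x) ≤ 1 := fun x hx => by rwa [nn_neg]
  have h1 : 0 ≤ cr v w := by
    have := h.max (-u) w v (hneg u h.hu) h.hw h.hv
    have e : ar (-u) w v = cr w u - cr v w + cr u v := by
      simp [ar, cr]; ring
    have e2 : ar u v w = cr w u + cr v w + cr u v := by unfold ar; ring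
    rw [e, e2] at this
    linarith
  have h2 : ∀ x, nn M O x ≤ 1 → cr x (v - w) ≤ cr w u + cr u v := by
    intro x hx
    have := h.max x v w hx h.hv h.hw
    have e : ar x v w = cr x (v - w) + cr v w := by
      simp [ar, cr]; ring
    have e2 : ar u v w = cr w u + cr v w + cr u v := by unfold ar; ring
    rw [e, e2] at this
    linarith
  have h3 : 0 < cr w u + cr u v := by
    have h4 := h2 (-v) (hneg v h.hv)
    have e : cr (-v) (v - w) = cr v w := by
      simp [cr]; ring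
    rw [e] at h4
    have h5 := h.pos
    have e2 : ar u v w = cr w u + cr v w + cr u v := by unfold ar; ring
    rw [e2] at h5
    linarith
  refine ⟨h1, h3, fun x => ?_⟩
  by_cases hx : x = 0
  · subst hx
    have : nn M O 0 = 0 := by simp [nn, ga]
    simp [this, cr]
  · have hx0 := nn_pos hpl hO hx
    have h6 : nn M O ((nn M O x)⁻¹ • x) ≤ 1 := by
      rw [nn_smul (inv_nonneg.2 hx0.le), inv_mul_cancel₀ hx0.ne']
    have h7 := h2 _ h6
    have h8 := h2 _ (hneg _ h6)
    have e7 : cr ((nn M O x)⁻¹ • x) (v - w) = (nn M O x)⁻¹ * cr x (v - w) := by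
      simp [cr]; ring
    have e8 : cr (-((nn M O x)⁻¹ • x)) (v - w) = (nn M O x)⁻¹ * (-cr x (v - w)) := by
      simp [cr]; ring
    rw [e7, inv_mul_le_iff₀ hx0] at h7
    rw [e8, inv_mul_le_iff₀ hx0] at h8
    rw [abs_le]
    constructor <;> linarith

/-! ### Triangles -/

theorem not_collinear_of_cr {A B C : Plane} (h : cr (B - A) (C - A) ≠ 0) :
    AffineIndependent ℝ ![A, B, C] := by
  rw [affineIndependent_iff_not_collinear_set]
  intro hcol
  rw [collinear_iff_of_mem (p₀ := A) (by simp)] at hcol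
  obtain ⟨v, hv⟩ := hcol
  obtain ⟨r, hr⟩ := hv B (by simp)
  obtain ⟨s, hs⟩ := hv C (by simp)
  apply h
  rw [hr, hs]
  simp [cr]; ring

theorem convexHull_three {A B C : Plane} {a b c : ℝ} (ha : 0 ≤ a) (hb : 0 ≤ b) (hc : 0 ≤ c)
    (h : a + b + c = 1) : a • A + b • B + c • C ∈ convexHull ℝ {A, B, C} := by
  have h1 := (convex_convexHull ℝ ({A, B, C} : Set Plane)).sum_mem (t := Finset.univ)
    (w := ![a, b, c]) (z := ![A, B, C])
    (by intro i _; fin_cases i <;> simp [ha, hb, hc])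
    (by simp [Fin.sum_univ_three, h])
    (by
      intro i _
      apply subset_convexHull
      fin_cases i <;> simp)
  simpa [Fin.sum_univ_three] using h1

theorem mem_interior_triangle {A B C O : Plane} (h1 : 0 < cr (B - O) (C - O))
    (h2 : 0 < cr (C - O) (A - O)) (h3 : 0 < cr (A - O) (B - O)) :
    O ∈ interior (convexHull ℝ {A, B, C}) := by
  have hD : ∀ p : Plane, cr (B - p) (C - p) + cr (C - p) (A - p) + cr (A - p) (B - p) =
      cr (B - A) (C - A) := by
    intro p; simp [cr]; ring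
  set D := cr (B - A) (C - A) with hDdef
  have hDpos : 0 < D := by rw [← hD O]; linarith
  rw [mem_interior]
  refine ⟨{p | 0 < cr (B - p) (C - p)} ∩ ({p | 0 < cr (C - p) (A - p)} ∩
    {p | 0 < cr (A - p) (B - p)}), ?_, ?_, h1, h2, h3⟩
  · rintro p ⟨hp1, hp2, hp3⟩
    have hp1' : 0 < cr (B - p) (C - p) := hp1
    have hp2' : 0 < cr (C - p) (A - p) := hp2
    have hp3' : 0 < cr (A - p) (B - p) := hp3
    have h4 := convexHull_three (A := A) (B := B) (C := C)
      (a := cr (B - p) (C - p) / D) (b := cr (C - p) (A - p) / D) (c := cr (A - p) (B - p) / D)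
      (by positivity) (by positivity) (by positivity)
      (by rw [← add_div, ← add_div, hD p, div_self hDpos.ne'])
    have h5 : (cr (B - p) (C - p) / D) • A + (cr (C - p) (A - p) / D) • B +
        (cr (A - p) (B - p) / D) • C = p := by
      have h6 : cr (B - p) (C - p) • A + cr (C - p) (A - p) • B + cr (A - p) (B - p) • C =
          D • p := by
        rw [hDdef]
        ext i
        fin_cases i <;> simp [cr] <;> ring
      have h7 : (cr (B - p) (C - p) / D) • A + (cr (C - p) (A - p) / D) • B +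
        (cr (A - p) (B - p) / D) • C = D⁻¹ • (cr (B - p) (C - p) • A +
          cr (C - p) (A - p) • B + cr (A - p) (B - p) • C) := by
        simp only [div_eq_inv_mul, smul_add, smul_smul]
      rw [h7, h6, smul_smul, inv_mul_cancel₀ hDpos.ne', one_smul]
    rwa [h5] at h4
  · have c1 : Continuous fun p : Plane => cr (B - p) (C - p) := by unfold cr; fun_prop
    have c2 : Continuous fun p : Plane => cr (C - p) (A - p) := by unfold cr; fun_prop
    have c3 : Continuous fun p : Plane => cr (A - p) (B - p) := by unfold cr; fun_prop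
    exact (isOpen_lt continuous_const c1).inter
      ((isOpen_lt continuous_const c2).inter (isOpen_lt continuous_const c3))

/-! ### Estimates for small configurations -/

theorem tau_eq (M : Set Plane) (O v : Plane) :
    tau M O v = 2 * nn M O v / (2 + ga M O (-v) - ga M O v) := by
  unfold tau nn
  congr 1; ring

theorem tau_le {M : Set Plane} {O v : Plane} {z : ℝ} (hz : nn M O v ≤ z) (hz1 : z < 1) :
    tau M O v ≤ z / (1 - z) := by
  have ha := ga_nonneg M O v
  have hb := ga_nonneg M O (-v)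
  have hn := nn_nonneg M O v
  have h1 : ga M O v + ga M O (-v) = 2 * nn M O v := by unfold nn; ring
  rw [tau_eq, div_le_div_iff₀ (by linarith) (by linarith)]
  nlinarith

theorem le_tau {M : Set Plane} {O v : Plane} {y e : ℝ} (hy : y ≤ nn M O v) (hye : y ≤ e)
    (he : 0 < e) (hv : ga M O v < 1) : y / (1 + e) ≤ tau M O v := by
  have ha := ga_nonneg M O v
  have hb := ga_nonneg M O (-v)
  have hn := nn_nonneg M O v
  have h1 : ga M O v + ga M O (-v) = 2 * nn M O v := by unfold nn; ring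
  rw [tau_eq, div_le_div_iff₀ (by linarith) (by linarith)]
  rcases le_total y 0 with h0 | h0
  · have h2 : y * (2 + ga M O (-v) - ga M O v) ≤ 0 :=
      mul_nonpos_of_nonpos_of_nonneg h0 (by linarith)
    have h3 : 0 ≤ 2 * nn M O v * (1 + e) := by positivity
    linarith
  · nlinarith

theorem foot_lower {M : Set Plane} (h : IsHilbertPlane M) {O : Plane} (hO : O ∈ M)
    {u v w g : Plane} (hm : IsMaxTri M O u v w) (hg : nn M O g ≤ 1) {e : ℝ} (he : 0 < e)
    {X : Plane} (hX : X ∈ hLine M (O + e • (v - e • g)) (O + e • (w - e • g))) :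
    e * (cr v w / (cr w u + cr u v) - e) / (1 + e) ≤ tau M O (X - O) := by
  obtain ⟨h1, h2, h3⟩ := hm.props h hO
  obtain ⟨hX1, hX2⟩ := hX
  have hX3 : ga M O (X - O) < 1 := by
    rw [ga_lt_one_iff h.isOpen h.convex hO]; simpa using hX2
  have hle1 : cr v w / (cr w u + cr u v) ≤ 1 := by
    rw [div_le_one h2]
    have h4 := h3 v
    have h5 : cr v (v - w) = -cr v w := by simp [cr]; ring
    rw [h5, abs_neg, abs_of_nonneg h1] at h4
    nlinarith [hm.hv]
  apply le_tau _ _ he hX3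
  · rw [SetLike.mem_coe, mem_affineSpan_pair_iff_exists_lineMap_eq] at hX1
    obtain ⟨s, hs⟩ := hX1
    have h6 : X - O = e • ((1 - s) • v + s • w - e • g) := by
      rw [← hs, AffineMap.lineMap_apply_module]; module
    have h7 : cr (X - O) (v - w) = e * (-cr v w - e * cr g (v - w)) := by
      rw [h6]; simp [cr]; ring
    have h8 := h3 (X - O)
    have h9 := h3 g
    rw [h7, abs_mul, abs_of_pos he] at h8
    have h10 : cr v w - e * (cr w u + cr u v) ≤ |(-cr v w - e * cr g (v - w))| := by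
      have h11 : |cr g (v - w)| ≤ cr w u + cr u v := by nlinarith
      have h12 := abs_le.1 h11
      have h13 : -(e * (cr w u + cr u v)) ≤ e * cr g (v - w) := by nlinarith
      have h14 := neg_abs_le (-cr v w - e * cr g (v - w))
      have h15 : cr v w + e * cr g (v - w) ≤ |(-cr v w - e * cr g (v - w))| := by linarith
      linarith
    have h16 : e * (cr v w - e * (cr w u + cr u v)) ≤ (cr w u + cr u v) * nn M O (X - O) :=
      le_trans (mul_le_mul_of_nonneg_left h10 he.le) h8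
    have h17 : e * (cr v w / (cr w u + cr u v) - e) * (cr w u + cr u v) =
        e * (cr v w - e * (cr w u + cr u v)) := by
      field_simp
    nlinarith
  · nlinarith

theorem nesbitt {x y z : ℝ} (h1 : 0 < y + z) (h2 : 0 < z + x) (h3 : 0 < x + y) :
    3 / 2 ≤ x / (y + z) + y / (z + x) + z / (x + y) := by
  rw [div_add_div _ _ h1.ne' h2.ne', div_add_div _ _ (by positivity) h3.ne',
    div_le_div_iff₀ (by norm_num) (by positivity)]
  nlinarith [mul_nonneg (by linarith : 0 ≤ x + y + (z + x) + (y + z)) (sq_nonneg (x - y)),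
    sq_nonneg (x - y), sq_nonneg (y - z), sq_nonneg (z - x),
    mul_nonneg h1.le (sq_nonneg (y - z)), mul_nonneg h2.le (sq_nonneg (z - x)),
    mul_nonneg h3.le (sq_nonneg (x - y))]

theorem small_config {M : Set Plane} (h : IsHilbertPlane M) {e : ℝ} (he : 0 < e)
    (he1 : e ≤ 1 / 10) : ∃ O A B C P Q R, IsConfig M O A B C P Q R ∧
      configRatio M O A B C P Q R ≤ 2 + 20 * e := by
  obtain ⟨O, hO⟩ := h.nonempty
  have hM := h.isOpen
  have hc := h.convex
  obtain ⟨u, v, w, hm⟩ := exists_maxTri h hO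
  obtain ⟨p1, p2, p3⟩ := hm.props h hO
  obtain ⟨q1, q2, q3⟩ := hm.rot.props h hO
  obtain ⟨r1, r2, r3⟩ := hm.rot.rot.props h hO
  set g : Plane := (1 / 3 : ℝ) • (u + v + w) with hgdef
  have hg : nn M O g ≤ 1 := by
    rw [hgdef, nn_smul (by norm_num)]
    have h1 := nn_add_le hM hc hO (u + v) w
    have h2 := nn_add_le hM hc hO u v
    linarith [hm.hu, hm.hv, hm.hw]
  set A := O + e • (u - e • g) with hA
  set B := O + e • (v - e • g) with hB
  set C := O + e • (w - e • g) with hC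
  have hz1 : e * (1 + e) < 1 := by nlinarith
  have hnn : ∀ x, nn M O x ≤ 1 → nn M O (e • (x - e • g)) ≤ e * (1 + e) := by
    intro x hx
    rw [nn_smul he.le]
    have h1 := nn_add_le hM hc hO x (-(e • g))
    rw [nn_neg, nn_smul he.le, ← sub_eq_add_neg] at h1
    have h2 : e * nn M O g ≤ e := by nlinarith
    exact mul_le_mul_of_nonneg_left (by linarith) he.le
  have hmem : ∀ x, nn M O x ≤ 1 → O + e • (x - e • g) ∈ M := by
    intro x hx
    have h1 := hnn x hx
    rw [← ga_lt_one_iff hM hc hO]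
    have h2 := ga_nonneg M O (-(e • (x - e • g)))
    unfold nn at h1
    nlinarith
  have hAM : A ∈ M := hmem u hm.hu
  have hBM : B ∈ M := hmem v hm.hv
  have hCM : C ∈ M := hmem w hm.hw
  obtain ⟨P, hP⟩ := exists_foot h hO (B := C) hBM
  obtain ⟨Q, hQ⟩ := exists_foot h hO (B := A) hCM
  obtain ⟨R, hR⟩ := exists_foot h hO (B := B) hAM
  have hpos := hm.pos
  have hdet : cr (B - A) (C - A) = e ^ 2 * ar u v w := by
    simp [hA, hB, hC, cr, ar]; ring
  have htri : AffineIndependent ℝ ![A, B, C] := by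
    apply not_collinear_of_cr
    rw [hdet]; positivity
  -- O inside
  have hin : O ∈ interior (convexHull ℝ {A, B, C}) := by
    have e1 : cr (B - O) (C - O) = e ^ 2 * ((1 - e) * cr v w + e / 3 * ar u v w) := by
      simp [hB, hC, hgdef, cr, ar]; ring
    have e2 : cr (C - O) (A - O) = e ^ 2 * ((1 - e) * cr w u + e / 3 * ar u v w) := by
      simp [hA, hC, hgdef, cr, ar]; ring
    have e3 : cr (A - O) (B - O) = e ^ 2 * ((1 - e) * cr u v + e / 3 * ar u v w) := by
      simp [hA, hB, hgdef, cr, ar]; ring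
    have k : 0 ≤ 1 - e := by linarith
    apply mem_interior_triangle
    · rw [e1]; positivity
    · rw [e2]; positivity
    · rw [e3]; positivity
  refine ⟨O, A, B, C, P, Q, R, ⟨hAM, hBM, hCM, htri, hin, hP, hQ, hR⟩, ?_⟩
  unfold configRatio
  rw [tanh_hDist hM hc hO hAM, tanh_hDist hM hc hO hBM, tanh_hDist hM hc hO hCM,
    tanh_hDist hM hc hO hP.1.2, tanh_hDist hM hc hO hQ.1.2, tanh_hDist hM hc hO hR.1.2]
  have tA : tau M O (A - O) ≤ e * (1 + e) / (1 - e * (1 + e)) := by
    apply tau_le _ hz1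
    have := hnn u hm.hu
    simpa [hA] using this
  have tB : tau M O (B - O) ≤ e * (1 + e) / (1 - e * (1 + e)) := by
    apply tau_le _ hz1
    have := hnn v hm.hv
    simpa [hB] using this
  have tC : tau M O (C - O) ≤ e * (1 + e) / (1 - e * (1 + e)) := by
    apply tau_le _ hz1
    have := hnn w hm.hw
    simpa [hC] using this
  have tP := foot_lower h hO hm hg he hP.1
  have tQ := foot_lower h hO hm.rot hg he hQ.1
  have tR := foot_lower h hO hm.rot.rot hg he hR.1
  have hnes := nesbitt (x := cr v w) (y := cr w u) (z := cr u v) p2 (by linarith) (by linarith)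
  have hden : e * (3 / 2 - 3 * e) / (1 + e) ≤
      tau M O (P - O) + tau M O (Q - O) + tau M O (R - O) := by
    refine le_trans ?_ (add_le_add (add_le_add tP tQ) tR)
    rw [← add_div, ← add_div]
    apply div_le_div_of_nonneg_right _ (by linarith)
    have : e * (cr v w / (cr w u + cr u v) - e) + e * (cr w u / (cr u v + cr v w) - e) +
        e * (cr u v / (cr v w + cr w u) - e) = e * (cr v w / (cr w u + cr u v) +
          cr w u / (cr u v + cr v w) + cr u v / (cr v w + cr w u) - 3 * e) := by ring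
    rw [this]
    apply mul_le_mul_of_nonneg_left _ he.le
    linarith
  have hden0 : 0 < e * (3 / 2 - 3 * e) / (1 + e) := by
    apply div_pos _ (by linarith)
    apply mul_pos he; linarith
  rw [div_le_iff₀ (lt_of_lt_of_le hden0 hden)]
  have hfin : 3 * (e * (1 + e) / (1 - e * (1 + e))) ≤
      (2 + 20 * e) * (e * (3 / 2 - 3 * e) / (1 + e)) := by
    rw [mul_div_assoc', mul_div_assoc', div_le_div_iff₀ (by nlinarith) (by linarith)]
    have : (2 + 20 * e) * (e * (3 / 2 - 3 * e)) * (1 - e * (1 + e)) -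
        3 * (e * (1 + e)) * (1 + e) = 3 * e ^ 2 * (5 - 30 * e + 12 * e ^ 2 + 20 * e ^ 3) := by
      ring
    have h2 : 0 ≤ 3 * e ^ 2 * (5 - 30 * e + 12 * e ^ 2 + 20 * e ^ 3) := by
      apply mul_nonneg (by positivity)
      have : 0 ≤ 12 * e ^ 2 + 20 * e ^ 3 := by positivity
      linarith
    linarith
  have h18 := mul_le_mul_of_nonneg_left hden (by linarith : 0 ≤ 2 + 20 * e)
  linarith

theorem erdosRatio_le_two {M : Set Plane} (h : IsHilbertPlane M) : erdosRatio M ≤ 2 := by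
  apply le_of_forall_gt
  intro b hb
  induction b with
  | bot => simp at hb
  | top => 
    obtain ⟨O, A, B, C, P, Q, R, h1, h2⟩ := small_config h (e := 1 / 10) (by norm_num) le_rfl
    exact lt_of_le_of_lt (sInf_le ⟨O, A, B, C, P, Q, R, h1, rfl⟩) (EReal.coe_lt_top _)
  | coe x =>
    have hx : (2 : ℝ) < x := by
      rw [← EReal.coe_lt_coe_iff]; exact hb
    obtain ⟨O, A, B, C, P, Q, R, h1, h2⟩ := small_config h
      (e := min (1 / 10) ((x - 2) / 40)) (by
        apply lt_min (by norm_num)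
        linarith) (min_le_left _ _)
    refine lt_of_le_of_lt (sInf_le ⟨O, A, B, C, P, Q, R, h1, rfl⟩) ?_
    rw [EReal.coe_lt_coe_iff]
    have := min_le_right (1 / 10 : ℝ) ((x - 2) / 40)
    linarith


/-! ### The Euclidean Erdos-Mordell inequality -/

theorem norm_sq_eq' (v : Plane) : ‖v‖ ^ 2 = v 0 ^ 2 + v 1 ^ 2 := by
  rw [EuclideanSpace.norm_sq_eq, Fin.sum_univ_two, Real.norm_eq_abs, Real.norm_eq_abs, sq_abs,
    sq_abs]

theorem cr_le (v w : Plane) : cr v w ≤ ‖v‖ * ‖w‖ := by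
  apply le_of_sq_le_sq _ (by positivity)
  rw [mul_pow, norm_sq_eq', norm_sq_eq', cr]
  nlinarith [sq_nonneg (v 0 * w 0 + v 1 * w 1)]

theorem mordell_vertex {a b c : Plane} (hb : b ≠ a) (hc : c ≠ a) :
    ‖c - a‖ / ‖a - b‖ * cr a b + ‖a - b‖ / ‖c - a‖ * cr c a ≤ ‖a‖ * ‖b - c‖ := by
  have h1 : 0 < ‖a - b‖ := norm_pos_iff.2 (sub_ne_zero.2 hb.symm)
  have h2 : 0 < ‖c - a‖ := norm_pos_iff.2 (sub_ne_zero.2 hc)
  set q : Plane := (‖c - a‖ / ‖a - b‖) • (b - a) - (‖a - b‖ / ‖c - a‖) • (c - a) with hq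
  have e1 : cr a q = ‖c - a‖ / ‖a - b‖ * cr a b + ‖a - b‖ / ‖c - a‖ * cr c a := by
    simp [hq, cr]; ring
  have e2 : ‖q‖ = ‖b - c‖ := by
    have h3 : ‖q‖ ^ 2 = ‖b - c‖ ^ 2 := by
      have h4 : ‖q‖ ^ 2 = (‖c - a‖ / ‖a - b‖) ^ 2 * ‖a - b‖ ^ 2 +
          (‖a - b‖ / ‖c - a‖) ^ 2 * ‖c - a‖ ^ 2 -
          2 * (‖c - a‖ / ‖a - b‖ * (‖a - b‖ / ‖c - a‖)) *
            ((b 0 - a 0) * (c 0 - a 0) + (b 1 - a 1) * (c 1 - a 1)) := by
        rw [norm_sq_eq' q]
        have h5 := norm_sq_eq' (a - b)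
        have h6 := norm_sq_eq' (c - a)
        rw [h5, h6]
        simp [hq]
        ring
      have h7 : (‖c - a‖ / ‖a - b‖) ^ 2 * ‖a - b‖ ^ 2 = ‖c - a‖ ^ 2 := by
        field_simp
      have h8 : (‖a - b‖ / ‖c - a‖) ^ 2 * ‖c - a‖ ^ 2 = ‖a - b‖ ^ 2 := by
        field_simp
      have h9 : ‖c - a‖ / ‖a - b‖ * (‖a - b‖ / ‖c - a‖) = 1 := by
        field_simp
      rw [h4, h7, h8, h9, norm_sq_eq' (c - a), norm_sq_eq' (a - b), norm_sq_eq' (b - c)]
      simp
      ring
    have := abs_eq_abs.2 (sq_eq_sq_iff_eq_or_eq_neg.1 h3)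
    rwa [abs_of_nonneg (norm_nonneg _), abs_of_nonneg (norm_nonneg _)] at this
  rw [← e1, ← e2]
  exact cr_le a q

theorem erdos_mordell {a b c : Plane} (h1 : 0 ≤ cr b c) (h2 : 0 ≤ cr c a) (h3 : 0 ≤ cr a b)
    (hab : a ≠ b) (hbc : b ≠ c) (hca : c ≠ a) :
    2 * (cr b c / ‖b - c‖ + cr c a / ‖c - a‖ + cr a b / ‖a - b‖) ≤ ‖a‖ + ‖b‖ + ‖c‖ := by
  have p1 : 0 < ‖b - c‖ := norm_pos_iff.2 (sub_ne_zero.2 hbc)
  have p2 : 0 < ‖c - a‖ := norm_pos_iff.2 (sub_ne_zero.2 hca)
  have p3 : 0 < ‖a - b‖ := norm_pos_iff.2 (sub_ne_zero.2 hab)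
  have m1 := mordell_vertex (a := a) (b := b) (c := c) hab.symm hca
  have m2 := mordell_vertex (a := b) (b := c) (c := a) hbc.symm hab
  have m3 := mordell_vertex (a := c) (b := a) (c := b) hca.symm hbc
  set x := ‖b - c‖
  set y := ‖c - a‖
  set z := ‖a - b‖
  have n1 : y / x * (cr a b / z) + z / x * (cr c a / y) ≤ ‖a‖ := by
    have : y / x * (cr a b / z) + z / x * (cr c a / y) =
        (y / z * cr a b + z / y * cr c a) / x := by
      field_simp
    rw [this, div_le_iff₀ p1]; exact m1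
  have n2 : z / y * (cr b c / x) + x / y * (cr a b / z) ≤ ‖b‖ := by
    have : z / y * (cr b c / x) + x / y * (cr a b / z) =
        (z / x * cr b c + x / z * cr a b) / y := by
      field_simp
    rw [this, div_le_iff₀ p2]; exact m2
  have n3 : x / z * (cr c a / y) + y / z * (cr b c / x) ≤ ‖c‖ := by
    have : x / z * (cr c a / y) + y / z * (cr b c / x) =
        (x / y * cr c a + y / x * cr b c) / z := by
      field_simp
    rw [this, div_le_iff₀ p3]; exact m3
  have am : ∀ s t : ℝ, 0 < s → 0 < t → 2 ≤ s / t + t / s := by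
    intro s t hs ht
    rw [div_add_div _ _ ht.ne' hs.ne', le_div_iff₀ (by positivity)]
    nlinarith [sq_nonneg (s - t)]
  have k1 : 2 * (cr b c / x) ≤ (z / y + y / z) * (cr b c / x) :=
    mul_le_mul_of_nonneg_right (am z y p3 p2) (by positivity)
  have k2 : 2 * (cr c a / y) ≤ (z / x + x / z) * (cr c a / y) :=
    mul_le_mul_of_nonneg_right (am z x p3 p1) (by positivity)
  have k3 : 2 * (cr a b / z) ≤ (y / x + x / y) * (cr a b / z) :=
    mul_le_mul_of_nonneg_right (am y x p2 p1) (by positivity)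
  nlinarith

theorem exists_perp_foot {b c : Plane} (h : b ≠ c) :
    ∃ s : ℝ, ‖(1 - s) • b + s • c‖ = |cr b c| / ‖b - c‖ := by
  have h1 : 0 < ‖b - c‖ := norm_pos_iff.2 (sub_ne_zero.2 h)
  have h2 : ‖b - c‖ ^ 2 = (b 0 - c 0) ^ 2 + (b 1 - c 1) ^ 2 := by
    rw [norm_sq_eq']; simp
  refine ⟨(b 0 * (b 0 - c 0) + b 1 * (b 1 - c 1)) / ‖b - c‖ ^ 2, ?_⟩
  set s := (b 0 * (b 0 - c 0) + b 1 * (b 1 - c 1)) / ‖b - c‖ ^ 2 with hs
  have h3 : s * ‖b - c‖ ^ 2 = b 0 * (b 0 - c 0) + b 1 * (b 1 - c 1) := by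
    rw [hs, div_mul_cancel₀]; positivity
  rw [eq_div_iff h1.ne']
  have h4 : (‖(1 - s) • b + s • c‖ * ‖b - c‖) ^ 2 = |cr b c| ^ 2 := by
    rw [mul_pow, sq_abs, norm_sq_eq' ((1 - s) • b + s • c)]
    have e0 : ((1 - s) • b + s • c) 0 = b 0 - s * (b 0 - c 0) := by simp; ring
    have e1 : ((1 - s) • b + s • c) 1 = b 1 - s * (b 1 - c 1) := by simp; ring
    rw [e0, e1, cr]
    rw [h2] at h3 ⊢
    have h5 : ((b 0 - s * (b 0 - c 0)) ^ 2 + (b 1 - s * (b 1 - c 1)) ^ 2) *
        ((b 0 - c 0) ^ 2 + (b 1 - c 1) ^ 2) =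
        (b 0 ^ 2 + b 1 ^ 2) * ((b 0 - c 0) ^ 2 + (b 1 - c 1) ^ 2) -
        2 * (s * ((b 0 - c 0) ^ 2 + (b 1 - c 1) ^ 2)) *
          (b 0 * (b 0 - c 0) + b 1 * (b 1 - c 1)) +
        (s * ((b 0 - c 0) ^ 2 + (b 1 - c 1) ^ 2)) ^ 2 := by ring
    rw [h5, h3]; ring
  have h6 : 0 ≤ ‖(1 - s) • b + s • c‖ * ‖b - c‖ := by positivity
  have := abs_eq_abs.2 (sq_eq_sq_iff_eq_or_eq_neg.1 h4)
  rwa [abs_of_nonneg h6, abs_abs] at this

/-! ### The unit disc -/

/-- The standard scalar product. -/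
def dt (v w : Plane) : ℝ := v 0 * w 0 + v 1 * w 1

/-- The norm adapted to the point `o` of the unit disc. -/
noncomputable def qq (o v : Plane) : ℝ := √((dt o v) ^ 2 + (1 - ‖o‖ ^ 2) * ‖v‖ ^ 2)

theorem mem_disc {x : Plane} : x ∈ ball (0 : Plane) 1 ↔ ‖x‖ ^ 2 < 1 := by
  rw [mem_ball_zero_iff]
  constructor
  · intro h; nlinarith [norm_nonneg x]
  · intro h; nlinarith [norm_nonneg x]

theorem qq_sq {o : Plane} (ho : ‖o‖ ^ 2 < 1) (v : Plane) :
    qq o v ^ 2 = (dt o v) ^ 2 + (1 - ‖o‖ ^ 2) * ‖v‖ ^ 2 := by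
  have : 0 ≤ 1 - ‖o‖ ^ 2 := by linarith
  rw [qq, Real.sq_sqrt (by positivity)]

theorem dt_le_qq {o : Plane} (ho : ‖o‖ ^ 2 < 1) (v : Plane) : |dt o v| ≤ qq o v := by
  have : 0 ≤ 1 - ‖o‖ ^ 2 := by linarith
  apply Real.abs_le_sqrt
  have : 0 ≤ (1 - ‖o‖ ^ 2) * ‖v‖ ^ 2 := by positivity
  linarith

theorem qq_nonneg (o v : Plane) : 0 ≤ qq o v := Real.sqrt_nonneg _

theorem qq_neg (o v : Plane) : qq o (-v) = qq o v := by
  unfold qq dt; congr 1; simp; ring

theorem qq_smul {o : Plane} {r : ℝ} (hr : 0 ≤ r) (v : Plane) : qq o (r • v) = r * qq o v := by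
  unfold qq
  have : dt o (r • v) ^ 2 + (1 - ‖o‖ ^ 2) * ‖r • v‖ ^ 2 =
      r ^ 2 * (dt o v ^ 2 + (1 - ‖o‖ ^ 2) * ‖v‖ ^ 2) := by
    rw [norm_smul, mul_pow, Real.norm_eq_abs, sq_abs]
    simp [dt]; ring
  rw [this, Real.sqrt_mul (sq_nonneg r), Real.sqrt_sq hr]

theorem ga_disc {o : Plane} (ho : ‖o‖ ^ 2 < 1) (v : Plane) :
    ga (ball 0 1) o v = (dt o v + qq o v) / (1 - ‖o‖ ^ 2) := by
  have hk : 0 < 1 - ‖o‖ ^ 2 := by linarith
  have hoB : o ∈ ball (0 : Plane) 1 := mem_disc.2 ho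
  have habs := abs_le.1 (dt_le_qq ho v)
  have hz0 : 0 ≤ (dt o v + qq o v) / (1 - ‖o‖ ^ 2) := div_nonneg (by linarith) hk.le
  have hg0 := ga_nonneg (ball (0 : Plane) 1) o v
  have key : ∀ r : ℝ, 0 < r →
      (ga (ball 0 1) o v < r ↔ (dt o v + qq o v) / (1 - ‖o‖ ^ 2) < r) := by
    intro r hr
    have h1 : ga (ball 0 1) o v < r ↔ ga (ball 0 1) o (r⁻¹ • v) < 1 := by
      rw [ga_smul (inv_nonneg.2 hr.le), inv_mul_lt_iff₀ hr, mul_one]
    rw [h1, ga_lt_one_iff isOpen_ball (convex_ball _ _) hoB, mem_disc, div_lt_iff₀ hk]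
    have h2 : ‖o + r⁻¹ • v‖ ^ 2 = ‖o‖ ^ 2 + 2 * r⁻¹ * dt o v + r⁻¹ ^ 2 * ‖v‖ ^ 2 := by
      rw [norm_sq_eq', norm_sq_eq', norm_sq_eq']; simp [dt]; ring
    have h3 : ‖o + r⁻¹ • v‖ ^ 2 < 1 ↔ 2 * r * dt o v + ‖v‖ ^ 2 < (1 - ‖o‖ ^ 2) * r ^ 2 := by
      rw [h2]
      have h4 : ‖o‖ ^ 2 + 2 * r⁻¹ * dt o v + r⁻¹ ^ 2 * ‖v‖ ^ 2 =
        ‖o‖ ^ 2 + (2 * r * dt o v + ‖v‖ ^ 2) / r ^ 2 := by field_simp; ring
      rw [h4]
      have h5 : (2 * r * dt o v + ‖v‖ ^ 2) / r ^ 2 < 1 - ‖o‖ ^ 2 ↔
        2 * r * dt o v + ‖v‖ ^ 2 < (1 - ‖o‖ ^ 2) * r ^ 2 := div_lt_iff₀ (by positivity)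
      rw [← h5]
      constructor <;> intro h <;> linarith
    rw [h3]
    have hsq := qq_sq ho v
    constructor
    · intro h
      by_contra h6
      push Not at h6
      -- r k ≤ p + q
      have h7 : ((1 - ‖o‖ ^ 2) * r - dt o v) ^ 2 ≤ qq o v ^ 2 := by
        apply sq_le_sq'
        · have : 0 < (1 - ‖o‖ ^ 2) * r := by positivity
          linarith
        · linarith
      rw [hsq] at h7
      have h8 : (1 - ‖o‖ ^ 2) * ((1 - ‖o‖ ^ 2) * r ^ 2) ≤
          (1 - ‖o‖ ^ 2) * (2 * r * dt o v + ‖v‖ ^ 2) := by nlinarith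
      have h9 := le_of_mul_le_mul_left h8 hk
      linarith
    · intro h
      have h7 : qq o v ^ 2 < ((1 - ‖o‖ ^ 2) * r - dt o v) ^ 2 := by
        apply sq_lt_sq'
        · have := qq_nonneg o v
          linarith
        · linarith
      rw [hsq] at h7
      have h8 : (1 - ‖o‖ ^ 2) * (2 * r * dt o v + ‖v‖ ^ 2) <
          (1 - ‖o‖ ^ 2) * ((1 - ‖o‖ ^ 2) * r ^ 2) := by nlinarith
      exact lt_of_mul_lt_mul_left h8 hk.le
  rcases lt_trichotomy (ga (ball 0 1) o v) ((dt o v + qq o v) / (1 - ‖o‖ ^ 2)) with h | h | h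
  · obtain ⟨r, hr1, hr2⟩ := exists_between h
    have := (key r (by linarith)).1 hr1
    linarith
  · exact h
  · obtain ⟨r, hr1, hr2⟩ := exists_between h
    have := (key r (by linarith)).2 hr1
    linarith

theorem tau_disc {o : Plane} (ho : ‖o‖ ^ 2 < 1) {v : Plane} (hv : dt o v < 1 - ‖o‖ ^ 2) :
    tau (ball 0 1) o v = qq o v / (1 - ‖o‖ ^ 2 - dt o v) := by
  have hk : (1 - ‖o‖ ^ 2) ≠ 0 := by linarith
  have h1 : 1 - ‖o‖ ^ 2 - dt o v ≠ 0 := by linarith
  rw [tau, ga_disc ho, ga_disc ho, qq_neg]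
  have h2 : dt o (-v) = -dt o v := by simp [dt]; ring
  rw [h2]
  have h3 : 2 + (-dt o v + qq o v) / (1 - ‖o‖ ^ 2) - (dt o v + qq o v) / (1 - ‖o‖ ^ 2) =
      2 * (1 - ‖o‖ ^ 2 - dt o v) / (1 - ‖o‖ ^ 2) := by
    field_simp; ring
  rw [h3]
  field_simp
  ring

theorem dt_lt {o x : Plane} (ho : ‖o‖ ^ 2 < 1) (hx : ‖x‖ ^ 2 < 1) :
    dt o (x - o) < 1 - ‖o‖ ^ 2 := by
  have h1 : dt o (x - o) = dt o x - ‖o‖ ^ 2 := by
    rw [norm_sq_eq']; simp [dt]; ring
  have h2 : dt o x < 1 := by
    rw [norm_sq_eq'] at ho hx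
    unfold dt
    nlinarith [sq_nonneg (o 0 - x 0), sq_nonneg (o 1 - x 1)]
  linarith

/-- The point of the projective model centred at `o` corresponding to `x`. -/
noncomputable def ph (o x : Plane) : Plane := (1 - ‖o‖ ^ 2 - dt o (x - o))⁻¹ • (x - o)

theorem tau_eq_qq_ph {o x : Plane} (ho : ‖o‖ ^ 2 < 1) (hx : ‖x‖ ^ 2 < 1) :
    tau (ball 0 1) o (x - o) = qq o (ph o x) := by
  have h := dt_lt ho hx
  rw [tau_disc ho h, ph, qq_smul (inv_nonneg.2 (by linarith)), div_eq_inv_mul]

theorem line_point {o b c : Plane} (ho : ‖o‖ ^ 2 < 1) (hb : ‖b‖ ^ 2 < 1) (hc : ‖c‖ ^ 2 < 1)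
    {s : ℝ} (hs : qq o ((1 - s) • ph o b + s • ph o c) < 1) :
    ∃ x, x ∈ (line[ℝ, b, c] : Set Plane) ∧ ‖x‖ ^ 2 < 1 ∧
      tau (ball 0 1) o (x - o) = qq o ((1 - s) • ph o b + s • ph o c) := by
  have hk : 0 < 1 - ‖o‖ ^ 2 := by linarith
  have hB := dt_lt ho hb
  have hC := dt_lt ho hc
  set k := 1 - ‖o‖ ^ 2 with hkdef
  set β := k - dt o (b - o) with hβ
  set γ := k - dt o (c - o) with hγ
  have hβ0 : 0 < β := by linarith
  have hγ0 : 0 < γ := by linarith
  set y := (1 - s) • ph o b + s • ph o c with hy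
  have hphb : ph o b = β⁻¹ • (b - o) := rfl
  have hphc : ph o c = γ⁻¹ • (c - o) := rfl
  have hdy : -1 < dt o y := by
    have := (abs_le.1 (dt_le_qq ho y)).1
    linarith
  have hd : 1 + dt o y = k * ((1 - s) / β + s / γ) := by
    have e1 : dt o y = (1 - s) / β * dt o (b - o) + s / γ * dt o (c - o) := by
      rw [hy, hphb, hphc]
      simp [dt, div_eq_mul_inv]; ring
    have e2 : dt o (b - o) = k - β := by rw [hβ]; ring
    have e3 : dt o (c - o) = k - γ := by rw [hγ]; ring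
    rw [e1, e2, e3]
    field_simp
    ring
  set κ := k / (1 + dt o y) with hκ
  have hκ0 : 0 < κ := div_pos hk (by linarith)
  have hx : o + κ • y - o = κ • y := by abel
  have hone : κ * ((1 - s) / β + s / γ) = 1 := by
    have h1 : (1 + dt o y) ≠ 0 := by linarith
    rw [hκ, div_mul_eq_mul_div, ← hd, div_self h1]
  have hdx : dt o (κ • y) = κ * dt o y := by simp [dt]; ring
  have hkk : k - κ * dt o y = κ := by
    have h1 : (1 + dt o y) ≠ 0 := by linarith
    rw [hκ]; field_simp; ring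
  refine ⟨o + κ • y, ?_, ?_, ?_⟩
  · have h2 : o + κ • y = AffineMap.lineMap b c (κ * (s / γ)) := by
      rw [AffineMap.lineMap_apply_module]
      have h3 : (1 - κ * (s / γ)) = κ * ((1 - s) / β) := by linarith
      rw [h3]
      have h4 : o = (κ * ((1 - s) / β) + κ * (s / γ)) • o := by
        have : κ * ((1 - s) / β) + κ * (s / γ) = 1 := by linarith
        rw [this, one_smul]
      conv_lhs => rw [h4]
      rw [hy, hphb, hphc]
      module
    rw [h2]
    exact AffineMap.lineMap_mem_affineSpan_pair _ _ _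
  · rw [← mem_disc, ← ga_lt_one_iff isOpen_ball (convex_ball _ _) (mem_disc.2 ho), ga_disc ho,
      div_lt_one hk, qq_smul hκ0.le, hdx]
    have : κ * qq o y < κ := by nlinarith
    linarith
  · rw [hx, tau_disc ho (by rw [hdx]; linarith), qq_smul hκ0.le, hdx, ← hkdef, hkk]
    field_simp

/-- A linear map turning `qq o` into the Euclidean norm. -/
noncomputable def lin (o v : Plane) : Plane :=
  !₂[√(1 - o 1 ^ 2) * v 0 + o 0 * o 1 / √(1 - o 1 ^ 2) * v 1,
    √(1 - ‖o‖ ^ 2) / √(1 - o 1 ^ 2) * v 1]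

theorem norm_lin {o : Plane} (ho : ‖o‖ ^ 2 < 1) (v : Plane) : ‖lin o v‖ = qq o v := by
  have ho' := ho
  rw [norm_sq_eq'] at ho'
  have h1 : 0 < 1 - o 1 ^ 2 := by nlinarith [sq_nonneg (o 0)]
  have h2 : 0 < √(1 - o 1 ^ 2) := Real.sqrt_pos.2 h1
  have h3 : √(1 - o 1 ^ 2) ^ 2 = 1 - o 1 ^ 2 := Real.sq_sqrt h1.le
  have h4 : √(1 - ‖o‖ ^ 2) ^ 2 = 1 - ‖o‖ ^ 2 := Real.sq_sqrt (by linarith)
  have h5 : ‖lin o v‖ ^ 2 = qq o v ^ 2 := by
    rw [qq_sq ho, norm_sq_eq' (lin o v)]
    have e0 : (lin o v) 0 = √(1 - o 1 ^ 2) * v 0 + o 0 * o 1 / √(1 - o 1 ^ 2) * v 1 := by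
      simp [lin]
    have e1 : (lin o v) 1 = √(1 - ‖o‖ ^ 2) / √(1 - o 1 ^ 2) * v 1 := by
      simp [lin]
    rw [e0, e1]
    have e2 : (√(1 - o 1 ^ 2) * v 0 + o 0 * o 1 / √(1 - o 1 ^ 2) * v 1) ^ 2 +
        (√(1 - ‖o‖ ^ 2) / √(1 - o 1 ^ 2) * v 1) ^ 2 =
        √(1 - o 1 ^ 2) ^ 2 * v 0 ^ 2 + 2 * (o 0 * o 1) * v 0 * v 1 +
        ((o 0 * o 1) ^ 2 + √(1 - ‖o‖ ^ 2) ^ 2) / √(1 - o 1 ^ 2) ^ 2 * v 1 ^ 2 := by
      field_simp
      ring
    rw [e2, h3, h4, norm_sq_eq' o, norm_sq_eq' v]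
    have e3 : ((o 0 * o 1) ^ 2 + (1 - (o 0 ^ 2 + o 1 ^ 2))) / (1 - o 1 ^ 2) = 1 - o 0 ^ 2 := by
      rw [div_eq_iff h1.ne']; ring
    rw [e3, dt]; ring
  have := abs_eq_abs.2 (sq_eq_sq_iff_eq_or_eq_neg.1 h5)
  rwa [abs_of_nonneg (norm_nonneg _), abs_of_nonneg (qq_nonneg _ _)] at this

theorem lin_comb (o v w : Plane) (r s : ℝ) : lin o (r • v + s • w) = r • lin o v + s • lin o w := by
  ext i
  fin_cases i <;> simp [lin] <;> ring

theorem cr_lin {o : Plane} (ho : ‖o‖ ^ 2 < 1) (v w : Plane) :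
    cr (lin o v) (lin o w) = √(1 - ‖o‖ ^ 2) * cr v w := by
  have ho' := ho
  rw [norm_sq_eq'] at ho'
  have h1 : 0 < 1 - o 1 ^ 2 := by nlinarith [sq_nonneg (o 0)]
  have h2 : 0 < √(1 - o 1 ^ 2) := Real.sqrt_pos.2 h1
  simp only [cr, lin]
  simp
  field_simp
  ring


theorem disc_side {o b c : Plane} (ho : ‖o‖ ^ 2 < 1) (hb : ‖b‖ ^ 2 < 1) (hc : ‖c‖ ^ 2 < 1)
    (hne : lin o (ph o b) ≠ lin o (ph o c)) :
    ∃ x, x ∈ (line[ℝ, b, c] : Set Plane) ∧ ‖x‖ ^ 2 < 1 ∧
      tau (ball 0 1) o (x - o) =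
        |cr (lin o (ph o b)) (lin o (ph o c))| / ‖lin o (ph o b) - lin o (ph o c)‖ := by
  obtain ⟨s, hs⟩ := exists_perp_foot hne
  rw [← lin_comb, norm_lin ho] at hs
  have h1 : 0 < ‖lin o (ph o b) - lin o (ph o c)‖ := norm_pos_iff.2 (sub_ne_zero.2 hne)
  have h2 : |cr (lin o (ph o b)) (lin o (ph o c))| ≤
      ‖lin o (ph o b)‖ * ‖lin o (ph o b) - lin o (ph o c)‖ := by
    rw [abs_le]
    have k1 := cr_le (lin o (ph o b)) (lin o (ph o b) - lin o (ph o c))
    have k2 := cr_le (lin o (ph o b)) (lin o (ph o c) - lin o (ph o b))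
    rw [norm_sub_rev (lin o (ph o c))] at k2
    have e1 : cr (lin o (ph o b)) (lin o (ph o b) - lin o (ph o c)) =
        -cr (lin o (ph o b)) (lin o (ph o c)) := by simp [cr]; ring
    have e2 : cr (lin o (ph o b)) (lin o (ph o c) - lin o (ph o b)) =
        cr (lin o (ph o b)) (lin o (ph o c)) := by simp [cr]; ring
    rw [e1] at k1
    rw [e2] at k2
    constructor <;> linarith
  have h3 : ‖lin o (ph o b)‖ < 1 := by
    rw [norm_lin ho, ← tau_eq_qq_ph ho hb]
    apply tau_lt_one isOpen_ball (convex_ball _ _) (mem_disc.2 ho)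
    simpa using hb
  have h4 : qq o ((1 - s) • ph o b + s • ph o c) < 1 := by
    rw [hs, div_lt_one h1]
    nlinarith
  obtain ⟨x, hx1, hx2, hx3⟩ := line_point ho hb hc h4
  exact ⟨x, hx1, hx2, by rw [hx3, hs]⟩

theorem disc_core_pos {o a b c : Plane} (ho : ‖o‖ ^ 2 < 1) (ha : ‖a‖ ^ 2 < 1)
    (hb : ‖b‖ ^ 2 < 1) (hc : ‖c‖ ^ 2 < 1) (hD : 0 < cr (b - a) (c - a)) {l m n : ℝ}
    (hl : 0 ≤ l) (hm : 0 ≤ m) (hn : 0 ≤ n) (hsum : l + m + n = 1)
    (hcomb : l • a + m • b + n • c = o) :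
    ∃ x y z, x ∈ (line[ℝ, b, c] : Set Plane) ∧ y ∈ (line[ℝ, c, a] : Set Plane) ∧
      z ∈ (line[ℝ, a, b] : Set Plane) ∧ ‖x‖ ^ 2 < 1 ∧ ‖y‖ ^ 2 < 1 ∧ ‖z‖ ^ 2 < 1 ∧
      2 * (tau (ball 0 1) o (x - o) + tau (ball 0 1) o (y - o) + tau (ball 0 1) o (z - o)) ≤
        tau (ball 0 1) o (a - o) + tau (ball 0 1) o (b - o) + tau (ball 0 1) o (c - o) := by
  have hk : 0 < 1 - ‖o‖ ^ 2 := by linarith
  have hsk : 0 < √(1 - ‖o‖ ^ 2) := Real.sqrt_pos.2 hk
  have hA := dt_lt ho ha
  have hB := dt_lt ho hb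
  have hC := dt_lt ho hc
  set α := 1 - ‖o‖ ^ 2 - dt o (a - o) with hα
  set β := 1 - ‖o‖ ^ 2 - dt o (b - o) with hβ
  set γ := 1 - ‖o‖ ^ 2 - dt o (c - o) with hγ
  have hα0 : 0 < α := by linarith
  have hβ0 : 0 < β := by linarith
  have hγ0 : 0 < γ := by linarith
  have hpa : ph o a = α⁻¹ • (a - o) := rfl
  have hpb : ph o b = β⁻¹ • (b - o) := rfl
  have hpc : ph o c = γ⁻¹ • (c - o) := rfl
  have hl' : l = 1 - m - n := by linarith
  have ca : cr (b - o) (c - o) = l * cr (b - a) (c - a) := by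
    rw [← hcomb, hl']; simp [cr]; ring
  have cb : cr (c - o) (a - o) = m * cr (b - a) (c - a) := by
    rw [← hcomb, hl']; simp [cr]; ring
  have cc : cr (a - o) (b - o) = n * cr (b - a) (c - a) := by
    rw [← hcomb, hl']; simp [cr]; ring
  have sm : ∀ (r s : ℝ) (v w : Plane), cr (r • v) (s • w) = r * s * cr v w := by
    intro r s v w; simp [cr]; ring
  have Sa : cr (lin o (ph o b)) (lin o (ph o c)) =
      √(1 - ‖o‖ ^ 2) * (β⁻¹ * γ⁻¹ * (l * cr (b - a) (c - a))) := by
    rw [cr_lin ho, hpb, hpc, sm, ca]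
  have Sb : cr (lin o (ph o c)) (lin o (ph o a)) =
      √(1 - ‖o‖ ^ 2) * (γ⁻¹ * α⁻¹ * (m * cr (b - a) (c - a))) := by
    rw [cr_lin ho, hpc, hpa, sm, cb]
  have Sc : cr (lin o (ph o a)) (lin o (ph o b)) =
      √(1 - ‖o‖ ^ 2) * (α⁻¹ * β⁻¹ * (n * cr (b - a) (c - a))) := by
    rw [cr_lin ho, hpa, hpb, sm, cc]
  set a' := lin o (ph o a) with ha'
  set b' := lin o (ph o b) with hb'
  set c' := lin o (ph o c) with hc'
  have Sa0 : 0 ≤ cr b' c' := by rw [Sa]; positivity
  have Sb0 : 0 ≤ cr c' a' := by rw [Sb]; positivity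
  have Sc0 : 0 ≤ cr a' b' := by rw [Sc]; positivity
  have hpos : 0 < cr b' c' + cr c' a' + cr a' b' := by
    have : cr b' c' + cr c' a' + cr a' b' = √(1 - ‖o‖ ^ 2) * cr (b - a) (c - a) *
        (α⁻¹ * β⁻¹ * γ⁻¹) * (α * l + β * m + γ * n) := by
      rw [Sa, Sb, Sc]; field_simp
    rw [this]
    have h1 : 0 < α * l + β * m + γ * n := by
      by_contra h2
      push Not at h2
      have h3 : 0 ≤ α * l := by positivity
      have h4 : 0 ≤ β * m := by positivity
      have h5 : 0 ≤ γ * n := by positivity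
      have h6 : α * l = 0 := by linarith
      have h7 : β * m = 0 := by linarith
      have h8 : γ * n = 0 := by linarith
      have h9 : l = 0 := (mul_eq_zero.1 h6).resolve_left hα0.ne'
      have h10 : m = 0 := (mul_eq_zero.1 h7).resolve_left hβ0.ne'
      have h11 : n = 0 := (mul_eq_zero.1 h8).resolve_left hγ0.ne'
      linarith
    positivity
  have nab : a' ≠ b' := by
    intro h; rw [h] at hpos; simp only [cr] at hpos; linarith
  have nbc : b' ≠ c' := by
    intro h; rw [h] at hpos; simp only [cr] at hpos; linarith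
  have nca : c' ≠ a' := by
    intro h; rw [h] at hpos; simp only [cr] at hpos; linarith
  have hem := erdos_mordell Sa0 Sb0 Sc0 nab nbc nca
  obtain ⟨x, hx1, hx2, hx3⟩ := disc_side ho hb hc nbc
  obtain ⟨y, hy1, hy2, hy3⟩ := disc_side ho hc ha nca
  obtain ⟨z, hz1, hz2, hz3⟩ := disc_side ho ha hb nab
  refine ⟨x, y, z, hx1, hy1, hz1, hx2, hy2, hz2, ?_⟩
  rw [hx3, hy3, hz3, abs_of_nonneg Sa0, abs_of_nonneg Sb0, abs_of_nonneg Sc0,
    tau_eq_qq_ph ho ha, tau_eq_qq_ph ho hb, tau_eq_qq_ph ho hc, ← norm_lin ho, ← norm_lin ho,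
    ← norm_lin ho]
  exact hem

theorem disc_core {o a b c : Plane} (ho : ‖o‖ ^ 2 < 1) (ha : ‖a‖ ^ 2 < 1)
    (hb : ‖b‖ ^ 2 < 1) (hc : ‖c‖ ^ 2 < 1) (hD : cr (b - a) (c - a) ≠ 0) {l m n : ℝ}
    (hl : 0 ≤ l) (hm : 0 ≤ m) (hn : 0 ≤ n) (hsum : l + m + n = 1)
    (hcomb : l • a + m • b + n • c = o) :
    ∃ x y z, x ∈ (line[ℝ, b, c] : Set Plane) ∧ y ∈ (line[ℝ, c, a] : Set Plane) ∧
      z ∈ (line[ℝ, a, b] : Set Plane) ∧ ‖x‖ ^ 2 < 1 ∧ ‖y‖ ^ 2 < 1 ∧ ‖z‖ ^ 2 < 1 ∧
      2 * (tau (ball 0 1) o (x - o) + tau (ball 0 1) o (y - o) + tau (ball 0 1) o (z - o)) ≤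
        tau (ball 0 1) o (a - o) + tau (ball 0 1) o (b - o) + tau (ball 0 1) o (c - o) := by
  rcases lt_or_gt_of_ne hD with h | h
  · have h1 : 0 < cr (c - a) (b - a) := by
      have : cr (c - a) (b - a) = -cr (b - a) (c - a) := by simp [cr]; ring
      linarith
    have h2 : l • a + n • c + m • b = o := by rw [← hcomb]; abel
    obtain ⟨x, y, z, hx, hy, hz, hx', hy', hz', hle⟩ :=
      disc_core_pos ho ha hc hb h1 hl hn hm (by linarith) h2
    refine ⟨x, z, y, ?_, ?_, ?_, hx', hz', hy', by linarith⟩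
    · rwa [AffineSubspace.affineSpan_pair_comm]
    · rwa [AffineSubspace.affineSpan_pair_comm]
    · rwa [AffineSubspace.affineSpan_pair_comm]
  · exact disc_core_pos ho ha hb hc h hl hm hn hsum hcomb

/-! ### Affine invariance and the hyperbolic plane -/

theorem ga_affine (e : Plane ≃ᵃ[ℝ] Plane) (B : Set Plane) (o v : Plane) :
    ga (e '' B) (e o) (e.linear v) = ga B o v := by
  unfold ga
  rw [gauge_def', gauge_def']
  congr 1
  ext r
  have h1 : e o + r⁻¹ • e.linear v = e (o + r⁻¹ • v) := by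
    have := e.map_vadd o (r⁻¹ • v)
    rw [vadd_eq_add, vadd_eq_add, map_smul] at this
    rw [add_comm o, this, add_comm]
  have h2 : r⁻¹ • e.linear v ∈ shift (e '' B) (e o) ↔ r⁻¹ • v ∈ shift B o := by
    unfold shift
    rw [mem_ofPred_eq, mem_ofPred_eq, h1, e.injective.mem_set_image]
  simp only [mem_ofPred_eq, h2]

theorem tau_affine (e : Plane ≃ᵃ[ℝ] Plane) (B : Set Plane) (o x : Plane) :
    tau (e '' B) (e o) (e x - e o) = tau B o (x - o) := by
  have h1 : e x - e o = e.linear (x - o) := by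
    have := e.toAffineMap.linearMap_vsub x o
    simpa using this.symm
  unfold tau
  rw [h1, ← map_neg, ga_affine, ga_affine]

theorem weights {A B C O : Plane} (h : O ∈ convexHull ℝ {A, B, C}) :
    ∃ l m n : ℝ, 0 ≤ l ∧ 0 ≤ m ∧ 0 ≤ n ∧ l + m + n = 1 ∧ l • A + m • B + n • C = O := by
  rw [convexHull_insert (by simp), convexHull_pair, mem_convexJoin] at h
  obtain ⟨A', hA', D, hD, hO⟩ := h
  rw [mem_singleton_iff] at hA'
  subst hA'
  obtain ⟨s, t, hs, ht, hst, rfl⟩ := hD
  obtain ⟨p, q, hp, hq, hpq, rfl⟩ := hO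
  refine ⟨p, q * s, q * t, hp, by positivity, by positivity, ?_, ?_⟩
  · rw [add_assoc, ← mul_add, hst, mul_one, hpq]
  · module

theorem cr_ne_zero_of_indep {A B C : Plane} (h : AffineIndependent ℝ ![A, B, C]) :
    cr (B - A) (C - A) ≠ 0 := by
  intro h0
  rw [affineIndependent_iff_not_collinear_set] at h
  apply h
  rw [collinear_iff_of_mem (p₀ := A) (by simp)]
  by_cases hBA : B = A
  · refine ⟨C - A, ?_⟩
    intro p hp
    simp only [mem_insert_iff, mem_singleton_iff] at hp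
    rcases hp with rfl | rfl | rfl
    · exact ⟨0, by simp⟩
    · exact ⟨0, by simp [hBA]⟩
    · exact ⟨1, by simp⟩
  · have hn : 0 < ‖B - A‖ := norm_pos_iff.2 (sub_ne_zero.2 hBA)
    have hn2 : ‖B - A‖ ^ 2 = (B 0 - A 0) ^ 2 + (B 1 - A 1) ^ 2 := by
      rw [norm_sq_eq']; simp
    have hn3 : (B 0 - A 0) ^ 2 + (B 1 - A 1) ^ 2 ≠ 0 := by rw [← hn2]; positivity
    have h0' : (B 0 - A 0) * (C 1 - A 1) = (B 1 - A 1) * (C 0 - A 0) := by
      simp [cr] at h0; linarith
    refine ⟨B - A, ?_⟩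
    intro p hp
    simp only [mem_insert_iff, mem_singleton_iff] at hp
    rcases hp with rfl | rfl | rfl
    · exact ⟨0, by simp⟩
    · exact ⟨1, by simp⟩
    · refine ⟨((B 0 - A 0) * (p 0 - A 0) + (B 1 - A 1) * (p 1 - A 1)) /
        ((B 0 - A 0) ^ 2 + (B 1 - A 1) ^ 2), ?_⟩
      ext i
      fin_cases i
      · simp
        field_simp
        linear_combination (-(B 1 - A 1)) * h0'
      · simp
        field_simp
        linear_combination (B 0 - A 0) * h0'

theorem cr_line_zero {o b c : Plane} (h : o ∈ (line[ℝ, b, c] : Set Plane)) :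
    cr (b - o) (c - o) = 0 := by
  rw [SetLike.mem_coe, mem_affineSpan_pair_iff_exists_lineMap_eq] at h
  obtain ⟨s, rfl⟩ := h
  rw [AffineMap.lineMap_apply_module]
  simp [cr]; ring

theorem tau_disc_eq_zero {o x : Plane} (ho : ‖o‖ ^ 2 < 1) (hx : ‖x‖ ^ 2 < 1)
    (h : tau (ball 0 1) o (x - o) = 0) : x = o := by
  have h1 := dt_lt ho hx
  rw [tau_disc ho h1, div_eq_zero_iff] at h
  rcases h with h | h
  · have h2 := qq_sq ho (x - o)
    rw [h] at h2
    have h3 : 0 < 1 - ‖o‖ ^ 2 := by linarith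
    have h4 : (1 - ‖o‖ ^ 2) * ‖x - o‖ ^ 2 = 0 := by
      have h5 : 0 ≤ (1 - ‖o‖ ^ 2) * ‖x - o‖ ^ 2 := by positivity
      nlinarith [sq_nonneg (dt o (x - o))]
    have h6 : ‖x - o‖ ^ 2 = 0 := (mul_eq_zero.1 h4).resolve_left h3.ne'
    have h7 : ‖x - o‖ = 0 := by simpa using h6
    exact sub_eq_zero.1 (norm_eq_zero.1 h7)
  · linarith

theorem map_line (e : Plane ≃ᵃ[ℝ] Plane) {b c x : Plane} :
    e x ∈ (line[ℝ, e b, e c] : Set Plane) ↔ x ∈ (line[ℝ, b, c] : Set Plane) := by
  rw [SetLike.mem_coe, SetLike.mem_coe, mem_affineSpan_pair_iff_exists_lineMap_eq,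
    mem_affineSpan_pair_iff_exists_lineMap_eq]
  constructor
  · rintro ⟨r, hr⟩
    refine ⟨r, e.injective ?_⟩
    rw [← hr]
    exact e.toAffineMap.apply_lineMap b c r
  · rintro ⟨r, rfl⟩
    exact ⟨r, (e.toAffineMap.apply_lineMap b c r).symm⟩

theorem two_le_configRatio {H : Set Plane} (hH : IsHyperbolicPlane H) {O A B C P Q R : Plane}
    (h : IsConfig H O A B C P Q R) : 2 ≤ configRatio H O A B C P Q R := by
  obtain ⟨e, rfl⟩ := hH
  have hM : IsOpen (e '' ball (0 : Plane) 1) := by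
    exact (AffineEquiv.toContinuousAffineEquiv e).toHomeomorph.isOpenMap (ball (0 : Plane) 1)
      isOpen_ball
  have hc : Convex ℝ (e '' ball (0 : Plane) 1) := (convex_ball _ _).affine_image e.toAffineMap
  have hOh : O ∈ convexHull ℝ {A, B, C} := interior_subset h.inside
  have hO : O ∈ e '' ball (0 : Plane) 1 := by
    apply convexHull_min _ hc hOh
    intro x hx
    simp only [mem_insert_iff, mem_singleton_iff] at hx
    rcases hx with rfl | rfl | rfl
    exacts [h.memA, h.memB, h.memC]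
  obtain ⟨a, ha, hea⟩ := h.memA
  obtain ⟨b, hb, heb⟩ := h.memB
  obtain ⟨c, hcc, hec⟩ := h.memC
  obtain ⟨o, ho, heo⟩ := hO
  obtain ⟨p, hp, hep⟩ := h.footP.1.2
  obtain ⟨q, hq, heq⟩ := h.footQ.1.2
  obtain ⟨r, hr, her⟩ := h.footR.1.2
  subst hea heb hec heo hep heq her
  have hoM : e o ∈ e '' ball (0 : Plane) 1 := mem_image_of_mem e ho
  have hind : AffineIndependent ℝ ![a, b, c] := by
    rw [← e.affineIndependent_iff]
    have : ⇑e ∘ ![a, b, c] = ![e a, e b, e c] := by
      ext i j; fin_cases i <;> rfl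
    rw [this]; exact h.triangle
  have hD := cr_ne_zero_of_indep hind
  have hoh : o ∈ convexHull ℝ {a, b, c} := by
    have h1 := e.toAffineMap.image_convexHull ({a, b, c} : Set Plane)
    have h2 : (e.toAffineMap '' ({a, b, c} : Set Plane)) = {e a, e b, e c} := by
      simp [image_insert_eq]
    rw [h2] at h1
    rw [← h1] at hOh
    obtain ⟨o', ho', ho''⟩ := hOh
    have : o' = o := e.injective ho''
    rwa [this] at ho'
  obtain ⟨l, m, n, hl, hm, hn, hsum, hcomb⟩ := weights hoh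
  have ho2 := mem_disc.1 ho
  obtain ⟨x, y, z, hx, hy, hz, hx', hy', hz', hle⟩ :=
    disc_core ho2 (mem_disc.1 ha) (mem_disc.1 hb) (mem_disc.1 hcc) hD hl hm hn hsum hcomb
  unfold configRatio
  rw [tanh_hDist hM hc hoM h.memA, tanh_hDist hM hc hoM h.memB, tanh_hDist hM hc hoM h.memC,
    tanh_hDist hM hc hoM h.footP.1.2, tanh_hDist hM hc hoM h.footQ.1.2,
    tanh_hDist hM hc hoM h.footR.1.2, tau_affine, tau_affine, tau_affine, tau_affine,
    tau_affine, tau_affine]
  have fP : tau (ball 0 1) o (p - o) ≤ tau (ball 0 1) o (x - o) := by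
    have hxM : e x ∈ e '' ball (0 : Plane) 1 := mem_image_of_mem e (mem_disc.2 hx')
    have := h.footP.2 (e x) ⟨(map_line e).2 hx, hxM⟩
    rwa [hDist_le_iff hM hc hoM h.footP.1.2 hxM, tau_affine, tau_affine] at this
  have fQ : tau (ball 0 1) o (q - o) ≤ tau (ball 0 1) o (y - o) := by
    have hxM : e y ∈ e '' ball (0 : Plane) 1 := mem_image_of_mem e (mem_disc.2 hy')
    have := h.footQ.2 (e y) ⟨(map_line e).2 hy, hxM⟩
    rwa [hDist_le_iff hM hc hoM h.footQ.1.2 hxM, tau_affine, tau_affine] at this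
  have fR : tau (ball 0 1) o (r - o) ≤ tau (ball 0 1) o (z - o) := by
    have hxM : e z ∈ e '' ball (0 : Plane) 1 := mem_image_of_mem e (mem_disc.2 hz')
    have := h.footR.2 (e z) ⟨(map_line e).2 hz, hxM⟩
    rwa [hDist_le_iff hM hc hoM h.footR.1.2 hxM, tau_affine, tau_affine] at this
  have nP : 0 ≤ tau (ball 0 1) o (p - o) :=
    tau_nonneg isOpen_ball (convex_ball _ _) ho (by simpa using hp)
  have nQ : 0 ≤ tau (ball 0 1) o (q - o) :=
    tau_nonneg isOpen_ball (convex_ball _ _) ho (by simpa using hq)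
  have nR : 0 ≤ tau (ball 0 1) o (r - o) :=
    tau_nonneg isOpen_ball (convex_ball _ _) ho (by simpa using hr)
  have hpos : 0 < tau (ball 0 1) o (p - o) + tau (ball 0 1) o (q - o) +
      tau (ball 0 1) o (r - o) := by
    by_contra hcon
    push Not at hcon
    have zP : tau (ball 0 1) o (p - o) = 0 := by linarith
    have zQ : tau (ball 0 1) o (q - o) = 0 := by linarith
    have zR : tau (ball 0 1) o (r - o) = 0 := by linarith
    have eP := tau_disc_eq_zero ho2 (mem_disc.1 hp) zP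
    have eQ := tau_disc_eq_zero ho2 (mem_disc.1 hq) zQ
    have eR := tau_disc_eq_zero ho2 (mem_disc.1 hr) zR
    have lP := cr_line_zero ((map_line e).1 h.footP.1.1)
    have lQ := cr_line_zero ((map_line e).1 h.footQ.1.1)
    have lR := cr_line_zero ((map_line e).1 h.footR.1.1)
    rw [eP] at lP
    rw [eQ] at lQ
    rw [eR] at lR
    apply hD
    have : cr (b - a) (c - a) = cr (b - o) (c - o) + cr (c - o) (a - o) + cr (a - o) (b - o) := by
      simp [cr]; ring
    rw [this, lP, lQ, lR]; norm_num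
  rw [le_div_iff₀ hpos]
  linarith

theorem two_le_erdosRatio {H : Set Plane} (hH : IsHyperbolicPlane H) : 2 ≤ erdosRatio H := by
  apply le_sInf
  rintro _ ⟨O, A, B, C, P, Q, R, h, rfl⟩
  have := two_le_configRatio hH h
  rw [show (2 : EReal) = ((2 : ℝ) : EReal) from rfl, EReal.coe_le_coe_iff]
  exact this

/-- Sanity check: the unit disc is a Hilbert plane in the sense of `IsHilbertPlane`. -/
theorem isHilbertPlane_disc : IsHilbertPlane (ball (0 : Plane) 1) where
  nonempty := ⟨0, by simp⟩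
  isOpen := isOpen_ball
  convex := convex_ball _ _
  strictConvex := by
    rw [closure_ball (0 : Plane) one_ne_zero]
    exact strictConvex_closedBall ℝ (0 : Plane) 1
  ne_univ := by
    intro h
    have h1 : EuclideanSpace.single 0 1 ∈ ball (0 : Plane) 1 := by rw [h]; trivial
    simp at h1

/-- Sanity check: the Erdos ratio of the unit disc is `2`. -/
theorem erdosRatio_disc : erdosRatio (ball (0 : Plane) 1) = 2 :=
  le_antisymm (erdosRatio_le_two isHilbertPlane_disc)
    (two_le_erdosRatio ⟨AffineEquiv.refl ℝ Plane, by simp⟩)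

/-- No Hilbert plane has a larger Erdos ratio than the hyperbolic plane. -/
theorem result : ∀ M H : Set Plane, IsHilbertPlane M → IsHyperbolicPlane H →
    erdosRatio M ≤ erdosRatio H := by
  intro M H hM hH
  exact (erdosRatio_le_two hM).trans (two_le_erdosRatio hH)

end Pool.Agent.Results.MP_28bd58_gt.ErdosRatioLe
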